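import Pool.Agent.Work.MP_8941bc_co.Rot.Guard

/-!
# Distances, single vertices, and the path guard
-/

namespace CopPath

universe u
variable {V : Type u} {G : SimpleGraph V} {ι κ : Type}

theorem step_toward (hG : G.Connected) {a b : V} {n : ℕ} (h : G.dist a b ≤ n + 1) :
    ∃ a', Step G a a' ∧ G.dist a' b ≤ n := by
  obtain ⟨w, hw⟩ := hG.exists_walk_length_eq_dist a b
  cases w with
  | nil => exact ⟨a, Step.refl _, by simp⟩
  | cons hadj w' =>
    refine ⟨_, Or.inr hadj, ?_⟩
    have := SimpleGraph.dist_le w'
    simp only [SimpleGraph.Walk.length_cons] at hw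
    omega

theorem dist_step (hG : G.Connected) {a b : V} (h : Step G a b) (c : V) :
    G.dist b c ≤ G.dist a c + 1 := by
  have h1 := hG.dist_triangle (u := b) (v := a) (w := c)
  have h2 : G.dist b a ≤ 1 := by
    rcases h with h | h
    · rw [h]; simp
    · rw [SimpleGraph.dist_eq_one_iff_adj.mpr h.symm]
  omega

theorem step_of_dist (hG : G.Connected) {a b : V} (h : G.dist a b ≤ 1) : Step G a b := by
  obtain ⟨w, hw⟩ := hG.exists_walk_length_eq_dist a b
  cases w with
  | nil => exact Step.refl _
  | cons hadj w' =>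
    cases w' with
    | nil => exact Or.inr hadj
    | cons _ _ => 
      simp only [SimpleGraph.Walk.length_cons] at hw
      omega

/-- all cops go to their targets -/
theorem reach_goto (hG : G.Connected) (D : Set V) (t : ι → V) (n : ℕ) : ∀ (c : ι → V) (z : V),
    (∀ i, G.dist (c i) (t i) ≤ n) → z ∈ D →
    Reach G D (fun c z => (∀ i, c i = t i) ∧ z ∈ D) c z := by
  induction n with
  | zero =>
    intro c z h hz
    refine Reach.here _ _ ⟨fun i => ?_, hz⟩
    have := h i
    exact (hG.dist_eq_zero_iff).mp (by omega)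
  | succ n ih =>
    intro c z h hz
    refine Reach.of_forall ?_
    intro z' _ hz'
    choose c' h1 h2 using fun i => step_toward hG (h i)
    exact ⟨c', h1, ih c' z' h2 hz'⟩

theorem reach_goto' [Finite ι] (hG : G.Connected) (D : Set V) (t : ι → V) (c : ι → V) (z : V)
    (hz : z ∈ D) : Reach G D (fun c z => (∀ i, c i = t i) ∧ z ∈ D) c z := by
  classical
  cases nonempty_fintype ι
  exact reach_goto hG D t (Finset.univ.sup fun i => G.dist (c i) (t i)) c z
    (fun i => Finset.le_sup (f := fun i => G.dist (c i) (t i)) (Finset.mem_univ i)) hz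

/-- one cop guards one vertex -/
theorem isGuard_singleton (hG : G.Connected) (D : Set V) (b : V) :
    IsGuard G D {b} (fun (c : Fin 1 → V) _ => c 0 = b) := by
  refine ⟨?_, ?_, ?_, ?_⟩
  · intro c z h _ hz
    exact ⟨0, by rw [h]; exact hz.symm⟩
  · intro c z h _ z' _ hz'
    rw [Set.mem_singleton_iff] at hz'
    exact ⟨0, by rw [h, hz']; exact Step.refl _⟩
  · intro c z h _ z' _ _
    exact ⟨c, fun _ => Step.refl _, h⟩
  · intro c z hz
    exact (reach_goto' hG D (fun _ => b) c z hz).mono (subset_refl _) (fun c z h => h.1 0)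

theorem guardable_singleton (hG : G.Connected) (D : Set V) (b : V) : Guardable G D {b} 1 :=
  ⟨_, isGuard_singleton hG D b⟩

theorem guardable_finset [DecidableEq V] (hG : G.Connected) (D : Set V) (S : Finset V) :
    Guardable G D (↑S : Set V) S.card := by
  induction S using Finset.induction_on with
  | empty =>
    simpa using (Guardable.empty (G := G) (D := D))
  | insert a S ha ih =>
    have := (guardable_singleton hG D a).union ih
    rw [Finset.card_insert_of_notMem ha, Finset.coe_insert]
    exact this.mono (subset_refl _) (by intro x hx; exact hx) (by omega)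

/-- one cop guards a path on which the robber has a shadow -/
theorem guardable_path (hG : G.Connected) (D : Set V) (k : ℕ) (hk : 1 ≤ k) (p : ℕ → V) (f : V → ℕ)
    (hadj : ∀ i, 1 ≤ i → i < k → G.Adj (p i) (p (i + 1)))
    (hfp : ∀ i, 1 ≤ i → i ≤ k → f (p i) = i)
    (hf1 : ∀ z ∈ D, 1 ≤ f z)
    (hpD : ∀ i, 1 ≤ i → i ≤ k → p i ∈ D)
    (hlip : ∀ z ∈ D, ∀ z' ∈ D, G.Adj z z' → f z' ≤ f z + 1) :
    Guardable G D {v | ∃ i, 1 ≤ i ∧ i ≤ k ∧ p i = v} 1 := by
  have hstep : ∀ i j, 1 ≤ i → i ≤ k → 1 ≤ j → j ≤ k → i ≤ j + 1 → j ≤ i + 1 →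
      Step G (p i) (p j) := by
    intro i j h1 h2 h3 h4 h5 h6
    rcases lt_trichotomy i j with h | h | h
    · have : j = i + 1 := by omega
      subst this
      exact Or.inr (hadj i h1 (by omega))
    · subst h
      exact Step.refl _
    · have : i = j + 1 := by omega
      subst this
      exact Or.inr (hadj j h3 (by omega)).symm
  have hlip' : ∀ z ∈ D, ∀ z' ∈ D, Step G z z' → f z' ≤ f z + 1 := by
    intro z hz z' hz' hs
    rcases hs with hs | hs
    · subst hs; omega
    · exact hlip z hz z' hz' hs
  have hkeep : ∀ (c : Fin 1 → V) z, c 0 = p (min (f z) k) → z ∈ D → ∀ z', Step G z z' → z' ∈ D →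
      ∃ c' : Fin 1 → V, (∀ i, Step G (c i) (c' i)) ∧ c' 0 = p (min (f z') k) := by
    intro c z h hz z' hs hz'
    have h1 := hlip' z hz z' hz' hs
    have h2 := hlip' z' hz' z hz hs.symm
    have h3 := hf1 z hz
    have h4 := hf1 z' hz'
    refine ⟨fun _ => p (min (f z') k), ?_, rfl⟩
    intro i
    have : i = 0 := Subsingleton.elim _ _
    subst this
    rw [h]
    exact hstep _ _ (by omega) (by omega) (by omega) (by omega) (by omega) (by omega)
  refine ⟨fun c z => c 0 = p (min (f z) k), ?_, ?_, ?_, ?_⟩
  · rintro c z h _ ⟨i, h1, h2, h3⟩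
    refine ⟨0, ?_⟩
    rw [h, ← h3, hfp i h1 h2, min_eq_left h2]
  · rintro c z h hz z' hs ⟨i, h1, h2, h3⟩
    have hz' : z' ∈ D := by rw [← h3]; exact hpD i h1 h2
    obtain ⟨c', h4, h5⟩ := hkeep c z h hz z' hs hz'
    refine ⟨0, ?_⟩
    have h6 := h4 0
    rw [h5, ← h3, hfp i h1 h2, min_eq_left h2] at h6
    rw [← h3]
    exact h6
  · exact hkeep
  · intro c z hz
    have chase : ∀ n (j : ℕ), k - j ≤ n → 1 ≤ j → j ≤ k → ∀ (c : Fin 1 → V) z, z ∈ D → c 0 = p j →
        j ≤ min (f z) k → Reach G D (fun c z => c 0 = p (min (f z) k)) c z := by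
      intro n
      induction n with
      | zero =>
        intro j h1 h2 h3 c z hz hc hj
        refine Reach.here _ _ ?_
        have : j = min (f z) k := by omega
        rw [hc, ← this]
      | succ n ih =>
        intro j h1 h2 h3 c z hz hc hj
        rcases hj.eq_or_lt with hj | hj
        · refine Reach.here _ _ ?_
          rw [hc, ← hj]
        · refine Reach.of_forall ?_
          intro z' hs hz'
          have h4 := hlip' z' hz' z hz hs.symm
          rcases Nat.lt_or_ge j (min (f z') k) with h5 | h5
          · refine ⟨fun _ => p (j + 1), ?_, ?_⟩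
            · intro i
              have : i = 0 := Subsingleton.elim _ _
              subst this
              rw [hc]
              exact hstep _ _ (by omega) (by omega) (by omega) (by omega) (by omega) (by omega)
            · exact ih (j + 1) (by omega) (by omega) (by omega) _ z' hz' rfl (by omega)
          · refine ⟨c, fun _ => Step.refl _, Reach.here _ _ ?_⟩
            have : j = min (f z') k := by omega
            rw [hc, ← this]
    refine Reach.trans ?_ (reach_goto' hG D (fun _ => p 1) c z hz)
    rintro c z ⟨h1, h2⟩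
    have h3 := hf1 z h2
    exact chase k 1 (by omega) le_rfl hk c z h2 (h1 0) (by omega)

end CopPath
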