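import Mathlib

/-!
# Cops and Robbers: the statement level definitions (MP_8941bc_co)
-/

namespace CopPath

universe u

/-- `CopsWin G k`: `k` cops have a winning strategy on `G`.
A strategy `σ` gives, for every list `l` of positions the robber has shown so far (oldest first), the
positions `σ l : Fin k → V` of the cops; `σ []` is the initial placement. When the robber shows one
more position, every cop stays or moves along an edge. The robber plays any sequence `ρ` of vertices in
which each one equals or is adjacent to the one before (`ρ 0` is his start vertex, chosen after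
`σ []`). After his positions `ρ 0, …, ρ n` it is the turn of the cops, who move to
`σ [ρ 0, …, ρ n]`; the cops win if at some such turn a cop stands on the vertex `ρ n`. -/
def CopsWin {V : Type u} (G : SimpleGraph V) (k : ℕ) : Prop :=
  ∃ σ : List V → Fin k → V,
    (∀ (l : List V) (v : V) (i : Fin k), σ (l ++ [v]) i = σ l i ∨ G.Adj (σ l i) (σ (l ++ [v]) i)) ∧
    ∀ ρ : ℕ → V, (∀ n, ρ (n + 1) = ρ n ∨ G.Adj (ρ n) (ρ (n + 1))) →
      ∃ (n : ℕ) (i : Fin k), σ ((List.range (n + 1)).map ρ) i = ρ n

/-- The cop number: the least `k` such that `k` cops have a winning strategy. -/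
noncomputable def copNumber {V : Type u} (G : SimpleGraph V) : ℕ := sInf {k | CopsWin G k}

/-- The longest path of `G` has `p` vertices: some path has exactly `p` vertices and no path has more. -/
def LongestPath {V : Type u} (G : SimpleGraph V) (p : ℕ) : Prop :=
  (∃ (u v : V) (w : G.Walk u v), w.IsPath ∧ w.length + 1 = p) ∧
    ∀ (u v : V) (w : G.Walk u v), w.IsPath → w.length + 1 ≤ p

end CopPath
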