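import Pool.Agent.Work.MP_8941bc_co.Rot.Basic

/-!
# The dispatch lemma
-/

namespace CopPath

universe u
variable {V : Type u} {G : SimpleGraph V} {ι κ : Type}

theorem mod_succ' (m q : ℕ) (hq : 0 < q) :
    (m + 1) % q = if m % q + 1 = q then 0 else m % q + 1 := by
  have h1 := Nat.div_add_mod m q
  have h2 := Nat.mod_lt m hq
  split_ifs with h
  · have : m + 1 = q * (m / q + 1) := by
      rw [Nat.mul_add, Nat.mul_one]; omega
    rw [this, Nat.mul_mod_right]
  · have : m + 1 = q * (m / q) + (m % q + 1) := by omega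
    rw [this, Nat.mul_add_mod, Nat.mod_eq_of_lt (by omega)]

/-- the state of a platoon `a` moves after it left -/
def Ph (G : SimpleGraph V) (S : Finset V) (x : V) (r : ℕ) (a : ℕ) {M : ℕ} (c : Fin M → V) (z : V) :
    Prop :=
  (a ≤ r → ∃ g : Fin M → V, (∀ j, G.dist (c j) (g j) ≤ r - a ∧ G.dist (c j) x ≤ a) ∧
    ∀ h ∈ S, G.dist z h ≤ r - a → ∃ j, g j = h) ∧
  (r ≤ a → ∀ j, G.dist (c j) x ≤ 2 * r - a)

theorem Ph.advance (hG : G.Connected) {S : Finset V} {x : V} {r a M : ℕ} {c : Fin M → V} {z : V}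
    (ha' : a < 2 * r) (h : Ph G S x r a c z) {z' : V} (hs : Step G z z') :
    ∃ c' : Fin M → V, (∀ j, Step G (c j) (c' j)) ∧ Ph G S x r (a + 1) c' z' := by
  rcases Nat.lt_or_ge a r with har | har
  · obtain ⟨g, h1, h2⟩ := h.1 har.le
    have h3 : ∀ j, ∃ c', Step G (c j) c' ∧ G.dist c' (g j) ≤ r - (a + 1) := by
      intro j
      have := (h1 j).1
      exact step_toward hG (by omega)
    choose c' h4 h5 using h3
    have h6 : ∀ j, G.dist (c' j) x ≤ a + 1 := by
      intro j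
      have := dist_step hG (h4 j) x
      have := (h1 j).2
      omega
    refine ⟨c', h4, ?_, ?_⟩
    · intro _
      refine ⟨g, fun j => ⟨h5 j, h6 j⟩, ?_⟩
      intro y hy hd
      refine h2 y hy ?_
      have := dist_step hG hs.symm y
      omega
    · intro h7 j
      have := h6 j
      omega
  · have h1 := h.2 har
    have h3 : ∀ j, ∃ c', Step G (c j) c' ∧ G.dist c' x ≤ 2 * r - (a + 1) := by
      intro j
      have := h1 j
      exact step_toward hG (by omega)
    choose c' h4 h5 using h3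
    refine ⟨c', h4, ?_, ?_⟩
    · intro h6
      omega
    · intro _ j
      exact h5 j

theorem Ph.dispatch (hG : G.Connected) {S : Finset V} {x : V} {r M : ℕ} {c : Fin M → V}
    (hr : 1 ≤ r) (hS : ∀ h ∈ S, G.dist x h ≤ r)
    (hcount : ∀ z, (S.filter (fun h => G.dist z h ≤ r - 1)).card ≤ M)
    (hc : ∀ j, c j = x) (z : V) :
    ∃ c' : Fin M → V, (∀ j, Step G (c j) (c' j)) ∧ Ph G S x r 1 c' z := by
  classical
  obtain ⟨g, hg1, hg2⟩ : ∃ g : Fin M → V, (∀ j, G.dist x (g j) ≤ r) ∧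
      ∀ h ∈ S, G.dist z h ≤ r - 1 → ∃ j, g j = h := by
    have h1 := hcount z
    set F := S.filter (fun h => G.dist z h ≤ r - 1) with hF
    have e : Fin F.card ≃ F := F.equivFin.symm
    refine ⟨fun j => if hj : j.val < F.card then (e ⟨j.val, hj⟩ : V) else x, ?_, ?_⟩
    · intro j
      beta_reduce
      split_ifs with hj
      · have hmem : (e ⟨j.val, hj⟩ : V) ∈ F := (e ⟨j.val, hj⟩).2
        exact hS _ (Finset.mem_filter.mp hmem).1
      · simp
    · intro y hy hd
      have hyF : y ∈ F := by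
        rw [hF, Finset.mem_filter]; exact ⟨hy, hd⟩
      refine ⟨⟨(e.symm ⟨y, hyF⟩).val, lt_of_lt_of_le (e.symm ⟨y, hyF⟩).2 h1⟩, ?_⟩
      simp
  have h3 : ∀ j, ∃ c', Step G (c j) c' ∧ G.dist c' (g j) ≤ r - 1 := by
    intro j
    have := hg1 j
    rw [← hc j] at this
    exact step_toward hG (by omega)
  choose c' h4 h5 using h3
  have h6 : ∀ j, G.dist (c' j) x ≤ 1 := by
    intro j
    have := dist_step hG (h4 j) x
    rw [hc j] at this
    simpa using this
  refine ⟨c', h4, ?_, ?_⟩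
  · intro _
    exact ⟨g, fun j => ⟨h5 j, h6 j⟩, hg2⟩
  · intro h7 j
    have := h6 j
    omega

theorem Ph.home (hG : G.Connected) {S : Finset V} {x : V} {r M : ℕ} {c : Fin M → V} {z : V}
    (h : Ph G S x r (2 * r) c z) (j : Fin M) : c j = x := by
  have := h.2 (by omega) j
  rw [Nat.sub_self] at this
  exact hG.dist_eq_zero_iff.mp (by omega)

/-- the invariant after `n` rounds -/
def Pn (G : SimpleGraph V) (S : Finset V) (x : V) (r M : ℕ) (n : ℕ) (c : Fin (2 * r) × Fin M → V)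
    (z : V) : Prop :=
  ∀ i : Fin (2 * r), (n ≤ i.val → ∀ j, c (i, j) = x) ∧
    (i.val < n → Ph G S x r ((n - 1 - i.val) % (2 * r) + 1) (fun j => c (i, j)) z)

theorem Pn.next (hG : G.Connected) {S : Finset V} {x : V} {r M n : ℕ}
    {c : Fin (2 * r) × Fin M → V} {z : V}
    (hr : 1 ≤ r) (hS : ∀ h ∈ S, G.dist x h ≤ r)
    (hcount : ∀ z, (S.filter (fun h => G.dist z h ≤ r - 1)).card ≤ M)
    (h : Pn G S x r M n c z) {z' : V} (hs : Step G z z') :
    ∃ c' : Fin (2 * r) × Fin M → V, (∀ j, Step G (c j) (c' j)) ∧ Pn G S x r M (n + 1) c' z' := by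
  have key : ∀ i : Fin (2 * r), ∃ c' : Fin M → V, (∀ j, Step G (c (i, j)) (c' j)) ∧
      (n + 1 ≤ i.val → ∀ j, c' j = x) ∧
      (i.val < n + 1 → Ph G S x r ((n + 1 - 1 - i.val) % (2 * r) + 1) c' z') := by
    intro i
    rcases lt_trichotomy i.val n with hi | hi | hi
    · have h1 := (h i).2 hi
      have h2 := mod_succ' (n - 1 - i.val) (2 * r) (by omega)
      have h3 := Nat.mod_lt (n - 1 - i.val) (show 0 < 2 * r by omega)
      have h4 : n + 1 - 1 - i.val = n - 1 - i.val + 1 := by omega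
      rw [h4, h2]
      split_ifs with h5
      · rw [h5] at h1
        obtain ⟨c', h6, h7⟩ := Ph.dispatch hG hr hS hcount (fun j => h1.home hG j) z'
        exact ⟨c', h6, fun h8 => by omega, fun _ => h7⟩
      · obtain ⟨c', h6, h7⟩ := h1.advance hG (by omega) hs
        exact ⟨c', h6, fun h8 => by omega, fun _ => h7⟩
    · obtain ⟨c', h6, h7⟩ := Ph.dispatch (M := M) (c := fun j => c (i, j)) hG hr hS hcount
        (fun j => (h i).1 hi.ge j) z'
      refine ⟨c', h6, fun h8 => by omega, fun _ => ?_⟩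
      have : n + 1 - 1 - i.val = 0 := by omega
      rw [this, Nat.zero_mod]
      exact h7
    · refine ⟨fun j => c (i, j), fun j => Step.refl _, fun _ j => (h i).1 hi.le j, fun h8 => ?_⟩
      omega
  choose c' h1 h2 h3 using key
  exact ⟨fun q => c' q.1 q.2, fun q => h1 q.1 q.2, fun i => ⟨h2 i, h3 i⟩⟩

theorem Pn.catch (hG : G.Connected) {S : Finset V} {x : V} {r M n : ℕ}
    {c : Fin (2 * r) × Fin M → V} {z : V}
    (hr : 1 ≤ r) (hn : 2 * r ≤ n) (h : Pn G S x r M n c z) (hz : z ∈ S) : ∃ i, c i = z := by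
  have h1 := Nat.div_add_mod (n - r) (2 * r)
  have h2 := Nat.mod_lt (n - r) (show 0 < 2 * r by omega)
  have h3 := (h ⟨(n - r) % (2 * r), h2⟩).2 (by simp only; omega)
  have h4 : (n - 1 - (n - r) % (2 * r)) % (2 * r) = r - 1 := by
    have : n - 1 - (n - r) % (2 * r) = 2 * r * ((n - r) / (2 * r)) + (r - 1) := by omega
    rw [this, Nat.mul_add_mod, Nat.mod_eq_of_lt (by omega)]
  simp only at h3
  rw [h4, Nat.sub_add_cancel hr] at h3
  obtain ⟨g, h5, h6⟩ := h3.1 le_rfl
  obtain ⟨j, hj⟩ := h6 z hz (by simp)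
  refine ⟨(⟨(n - r) % (2 * r), h2⟩, j), ?_⟩
  have h7 : G.dist (c (⟨(n - r) % (2 * r), h2⟩, j)) (g j) ≤ r - r := (h5 j).1
  rw [hj] at h7
  exact hG.dist_eq_zero_iff.mp (by omega)

/-- the dispatch lemma -/
theorem guardable_dispatch (hG : G.Connected) (D : Set V) (S : Finset V) (x : V) (r M : ℕ)
    (hr : 1 ≤ r) (hS : ∀ h ∈ S, G.dist x h ≤ r)
    (hcount : ∀ z, (S.filter (fun h => G.dist z h ≤ r - 1)).card ≤ M) :
    Guardable G D (↑S : Set V) (2 * r * M) := by
  refine Guardable.of_index (ι := Fin (2 * r) × Fin M)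
    (I := fun c z => ∃ n, 2 * r ≤ n ∧ Pn G S x r M n c z) ?_ (by simp)
  have hkeep : ∀ (c : Fin (2 * r) × Fin M → V) z, (∃ n, 2 * r ≤ n ∧ Pn G S x r M n c z) →
      ∀ z', Step G z z' → ∃ c' : Fin (2 * r) × Fin M → V, (∀ i, Step G (c i) (c' i)) ∧
      ∃ n, 2 * r ≤ n ∧ Pn G S x r M n c' z' := by
    rintro c z ⟨n, h1, h2⟩ z' hs
    obtain ⟨c', h3, h4⟩ := h2.next hG hr hS hcount hs
    exact ⟨c', h3, n + 1, by omega, h4⟩
  refine ⟨?_, ?_, ?_, ?_⟩
  · rintro c z ⟨n, h1, h2⟩ _ hz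
    exact h2.catch hG hr h1 (by simpa using hz)
  · rintro c z hI _ z' hs hz'
    obtain ⟨c', h3, n, h4, h5⟩ := hkeep c z hI z' hs
    obtain ⟨i, hi⟩ := h5.catch hG hr h4 (by simpa using hz')
    refine ⟨i, ?_⟩
    have := h3 i
    rw [hi] at this
    exact this
  · rintro c z hI _ z' hs _
    exact hkeep c z hI z' hs
  · intro c z hz
    have run : ∀ m n (c : Fin (2 * r) × Fin M → V) z, z ∈ D → 2 * r - n ≤ m → Pn G S x r M n c z →
        Reach G D (fun c z => ∃ n, 2 * r ≤ n ∧ Pn G S x r M n c z) c z := by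
      intro m
      induction m with
      | zero =>
        intro n c z hz h1 h2
        exact Reach.here _ _ ⟨n, by omega, h2⟩
      | succ m ih =>
        intro n c z hz h1 h2
        refine Reach.of_forall ?_
        intro z' hs hz'
        obtain ⟨c', h3, h4⟩ := h2.next hG hr hS hcount hs
        exact ⟨c', h3, ih (n + 1) c' z' hz' (by omega) h4⟩
    refine Reach.trans ?_ (reach_goto' hG D (fun _ => x) c z hz)
    rintro c z ⟨h1, h2⟩
    refine run (2 * r) 0 c z h2 (by omega) ?_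
    intro i
    exact ⟨fun _ j => h1 (i, j), fun h => by omega⟩

end CopPath
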