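import Pool.Agent.Work.MP_8941bc_co.Rot.Induct

/-!
# The bound `c(G) = o(p)`
-/

namespace CopPath

universe u
variable {V : Type u} {G : SimpleGraph V}

theorem walk_of_list : ∀ (L : List V) (o : V), (o :: L).IsChain G.Adj →
    ∃ (v : V) (w : G.Walk o v), w.support = o :: L := by
  intro L
  induction L with
  | nil =>
    intro o _
    exact ⟨o, SimpleGraph.Walk.nil, rfl⟩
  | cons a L ih =>
    intro o h
    rw [List.isChain_cons_cons] at h
    obtain ⟨v, w, hw⟩ := ih a h.2
    exact ⟨v, SimpleGraph.Walk.cons h.1 w, by rw [SimpleGraph.Walk.support_cons, hw]⟩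

theorem list_le_of_longestPath {p : ℕ} (h : LongestPath G p) (L : List V)
    (hc : L.IsChain G.Adj) (hn : L.Nodup) : L.length ≤ p := by
  cases L with
  | nil => exact Nat.zero_le _
  | cons o L =>
    obtain ⟨v, w, hw⟩ := walk_of_list L o hc
    have h1 := h.2 o v w (SimpleGraph.Walk.IsPath.mk' (by rw [hw]; exact hn))
    have h2 := SimpleGraph.Walk.length_support w
    rw [hw] at h2
    omega

theorem copNumber_lt (ε : ℝ) (hε : 0 < ε) : ∃ p₀ : ℕ, ∀ p : ℕ, p₀ ≤ p →
    ∀ (V : Type u) [Finite V] (G : SimpleGraph V), G.Connected → LongestPath G p →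
      (copNumber G : ℝ) < ε * p := by
  obtain ⟨N, hN⟩ := exists_nat_gt (1 / ε)
  have hN0 : (0 : ℝ) < N := lt_trans (by positivity) hN
  have hN1 : 1 ≤ N := by exact_mod_cast hN0
  have hNε : 1 < ε * N := by
    rw [div_lt_iff₀ hε] at hN
    linarith
  obtain ⟨T, hT⟩ : ∃ T, T = (2 * (16 * N * (16 * N) + 16 * N) * (16 * N)) ^
      (16 * N * (16 * N) + 16 * N) := ⟨_, rfl⟩
  refine ⟨16 * N * (16 * N * (1 + T)) + 4 * N + 1, ?_⟩
  intro p hp V _ G hG hlp
  obtain ⟨Em, hEm⟩ : ∃ Em, Em = p / (8 * N) := ⟨_, rfl⟩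
  obtain ⟨w, hw⟩ : ∃ w, w = 2 * p / (16 * N) := ⟨_, rfl⟩
  obtain ⟨x, hx⟩ : ∃ x, x = p / (16 * N) := ⟨_, rfl⟩
  have hwin : CopsWin G ((Em + w + 1) + (Em + w + 1)) := by
    refine copsWin_of_bound (p := p) (Em := Em) (Q := 16 * N) (s := 16 * N * (16 * N)) hG
      (by omega) ?_ (list_le_of_longestPath hlp) ?_ ?_
    · have : 0 < 16 * N * (16 * N) := by positivity
      exact this
    · rw [← hT, ← Nat.div_div_eq_div_mul, ← hx]
      have h1 : 16 * N * (x / (16 * N)) ≤ x := Nat.mul_div_le _ _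
      have h2 : 16 * N * x ≤ p := by rw [hx]; exact Nat.mul_div_le _ _
      have h3 : 2 * x ≤ Em := by
        rw [hEm, Nat.le_div_iff_mul_le (by omega)]
        calc 2 * x * (8 * N) = 16 * N * x := by ring
          _ ≤ p := h2
      have h4 : 16 * N * (1 + T) ≤ x := by
        rw [hx, Nat.le_div_iff_mul_le (by omega)]
        calc 16 * N * (1 + T) * (16 * N) = 16 * N * (16 * N * (1 + T)) := by ring
          _ ≤ p := by omega
      have h5 : 16 * N * (1 + T) = 16 * N + 16 * N * T := by ring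
      rw [Nat.mul_add, Nat.mul_one]
      omega
    · intro W hW
      have : W ≤ w := by
        rw [hw, Nat.le_div_iff_mul_le (by omega), mul_comm]
        exact hW
      omega
  have hle : copNumber G ≤ (Em + w + 1) + (Em + w + 1) := Nat.sInf_le hwin
  have h1 : 8 * N * Em ≤ p := by rw [hEm]; exact Nat.mul_div_le _ _
  have h2 : 16 * N * w ≤ 2 * p := by rw [hw]; exact Nat.mul_div_le _ _
  have h3 : 4 * N + 1 ≤ p := by omega
  have h4 : copNumber G * N < p := by
    have h5 : copNumber G * N ≤ ((Em + w + 1) + (Em + w + 1)) * N := Nat.mul_le_mul_right _ hle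
    nlinarith
  have h5 : (copNumber G : ℝ) * N < p := by exact_mod_cast h4
  have hp0 : (0 : ℝ) < p := by
    have : 0 < p := by omega
    exact_mod_cast this
  have h6 : (p : ℝ) < ε * p * N := by nlinarith
  by_contra hcon
  push Not at hcon
  have h7 : ε * p * N ≤ copNumber G * N := mul_le_mul_of_nonneg_right hcon hN0.le
  linarith

end CopPath
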