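import Pool.Agent.Work.MP_8941bc_co.Rot.Defs

/-!
# The game as an inductive predicate, and guarding
-/

namespace CopPath

universe u
variable {V : Type u} {G : SimpleGraph V} {ι κ : Type}

/-- stay or move along an edge -/
def Step (G : SimpleGraph V) (a b : V) : Prop := b = a ∨ G.Adj a b

theorem Step.refl (a : V) : Step G a a := Or.inl rfl

theorem Step.symm {a b : V} (h : Step G a b) : Step G b a := by
  rcases h with h | h
  · exact Or.inl h.symm
  · exact Or.inr h.symm

/-- `Reach G D P c z`: with the robber to move in the position `(c, z)`, the cops can force a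
position satisfying `P`, as long as the robber stays in `D`. -/
inductive Reach (G : SimpleGraph V) (D : Set V) (P : (ι → V) → V → Prop) : (ι → V) → V → Prop
  | here (c : ι → V) (z : V) (h : P c z) : Reach G D P c z
  | step (c : ι → V) (z : V) (resp : V → ι → V) (h1 : ∀ z' i, Step G (c i) (resp z' i))
      (h2 : ∀ z', Step G z z' → z' ∈ D → Reach G D P (resp z') z') : Reach G D P c z

theorem Reach.mono {D D' : Set V} {P P' : (ι → V) → V → Prop} (hD : D' ⊆ D)
    (hP : ∀ c z, P c z → P' c z) {c : ι → V} {z : V} (h : Reach G D P c z) :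
    Reach G D' P' c z := by
  induction h with
  | here c z h => exact Reach.here c z (hP c z h)
  | step c z resp h1 h2 ih =>
    exact Reach.step c z resp h1 (fun z' hz hz' => ih z' hz (hD hz'))

/-- one step of forcing, with an existential answer -/
theorem Reach.of_forall {D : Set V} {P : (ι → V) → V → Prop} {c : ι → V} {z : V}
    (h : ∀ z', Step G z z' → z' ∈ D → ∃ c' : ι → V, (∀ i, Step G (c i) (c' i)) ∧ Reach G D P c' z') :
    Reach G D P c z := by
  classical
  have h' : ∀ z', ∃ c' : ι → V, (∀ i, Step G (c i) (c' i)) ∧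
      (Step G z z' → z' ∈ D → Reach G D P c' z') := by
    intro z'
    by_cases hz : Step G z z' ∧ z' ∈ D
    · obtain ⟨c', h1, h2⟩ := h z' hz.1 hz.2
      exact ⟨c', h1, fun _ _ => h2⟩
    · exact ⟨c, fun i => Step.refl _, fun a b => absurd ⟨a, b⟩ hz⟩
  choose f hf1 hf2 using h'
  exact Reach.step c z f hf1 hf2

/-- composition of forcing -/
theorem Reach.trans {D : Set V} {P Q : (ι → V) → V → Prop}
    (hPQ : ∀ c z, P c z → Reach G D Q c z) {c : ι → V} {z : V} (h : Reach G D P c z) :
    Reach G D Q c z := by
  induction h with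
  | here c z h => exact hPQ c z h
  | step c z resp h1 h2 ih => exact Reach.step c z resp h1 ih

/-- the winning positions -/
def Win (G : SimpleGraph V) (c : ι → V) (z : V) : Prop :=
  Reach G Set.univ (fun c z => ∃ i, c i = z) c z

/-- winning positions give a strategy -/
theorem Win.strategy {k : ℕ} {c : Fin k → V} {z : V} (h : Win G c z) :
    ∃ σ : List V → Fin k → V, σ [] = c ∧ (∀ l v i, Step G (σ l i) (σ (l ++ [v]) i)) ∧
      ∀ ρ : ℕ → V, ρ 0 = z → (∀ n, Step G (ρ n) (ρ (n + 1))) →
        ∃ n i, σ ((List.range n).map (fun j => ρ (j + 1))) i = ρ n := by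
  classical
  unfold Win at h
  induction h with
  | here c z h =>
    obtain ⟨i, hi⟩ := h
    refine ⟨fun _ => c, rfl, fun _ _ _ => Step.refl _, ?_⟩
    intro ρ h0 _
    exact ⟨0, i, by rw [h0]; exact hi⟩
  | step c z resp h1 h2 ih =>
    have h' : ∀ z', ∃ σ : List V → Fin k → V, σ [] = resp z' ∧
        (∀ l v i, Step G (σ l i) (σ (l ++ [v]) i)) ∧
        (Step G z z' → ∀ ρ : ℕ → V, ρ 0 = z' → (∀ n, Step G (ρ n) (ρ (n + 1))) →
        ∃ n i, σ ((List.range n).map (fun j => ρ (j + 1))) i = ρ n) := by
      intro z'
      by_cases hz : Step G z z'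
      · obtain ⟨σ, a, b, d⟩ := ih z' hz (Set.mem_univ _)
        exact ⟨σ, a, b, fun _ => d⟩
      · exact ⟨fun _ => resp z', rfl, fun _ _ _ => Step.refl _, fun hh => absurd hh hz⟩
    choose τ hτ1 hτ2 hτ3 using h'
    refine ⟨fun l => match l with
      | [] => c
      | v :: l => τ v l, rfl, ?_, ?_⟩
    · intro l v i
      cases l with
      | nil =>
        simp only [List.nil_append]
        rw [hτ1]
        exact h1 v i
      | cons w l =>
        simp only [List.cons_append]
        exact hτ2 w l v i
    · intro ρ h0 hρ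
      have hz : Step G z (ρ 1) := by
        have := hρ 0
        rw [h0] at this
        exact this
      obtain ⟨n, i, hn⟩ := hτ3 (ρ 1) hz (fun j => ρ (j + 1)) rfl (fun n => hρ (n + 1))
      refine ⟨n + 1, i, ?_⟩
      rw [List.range_succ_eq_map]
      simp only [List.map_cons, List.map_map]
      exact hn

theorem copsWin_of_win {k : ℕ} (c : Fin k → V) (h : ∀ z, Win G c z) : CopsWin G k := by
  classical
  choose τ hτ1 hτ2 hτ3 using fun z => (h z).strategy
  refine ⟨fun l => match l with
      | [] => c
      | v :: l => τ v l, ?_, ?_⟩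
  · intro l v i
    cases l with
    | nil =>
      simp only [List.nil_append]
      rw [hτ1]
      exact Or.inl rfl
    | cons w l =>
      simp only [List.cons_append]
      exact hτ2 w l v i
  · intro ρ hρ
    obtain ⟨n, i, hn⟩ := hτ3 (ρ 0) ρ rfl (fun n => hρ n)
    refine ⟨n, i, ?_⟩
    rw [List.range_succ_eq_map]
    simp only [List.map_cons, List.map_map]
    exact hn

end CopPath
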