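import Pool.Agent.Work.MP_8941bc_co.Rot.Dispatch

/-!
# Guarding a set inside a ball cheaply
-/

namespace CopPath

universe u
variable {V : Type u} {G : SimpleGraph V}

theorem growth_step (μ : ℕ → ℕ) (R C : ℕ) (h0 : μ 0 ≤ 1) (hR : C ^ R < μ R) :
    ∃ r, 1 ≤ r ∧ r ≤ R ∧ C * μ (r - 1) ≤ μ r := by
  by_contra hcon
  push Not at hcon
  have : ∀ r, r ≤ R → μ r ≤ C ^ r := by
    intro r
    induction r with
    | zero => intro _; simpa using h0
    | succ r ih =>
      intro hr
      have h1 := hcon (r + 1) (by omega) hr
      have h2 := ih (by omega)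
      rw [Nat.add_sub_cancel] at h1
      calc μ (r + 1) ≤ C * μ r := h1.le
        _ ≤ C * C ^ r := Nat.mul_le_mul_left _ h2
        _ = C ^ (r + 1) := by rw [pow_succ, mul_comm]
  have := this R le_rfl
  omega

theorem guardable_ball [Finite V] (hG : G.Connected) (D : Set V) (v0 : V) (R Q : ℕ) :
    ∀ (n : ℕ) (S : Finset V), S.card ≤ n → (∀ h ∈ S, G.dist v0 h ≤ R) →
    ∃ w, Q * w ≤ S.card + Q * (2 * R * Q) ^ R ∧ Guardable G D (↑S : Set V) w := by
  classical
  cases nonempty_fintype V
  intro n
  induction n with
  | zero =>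
    intro S hS _
    have : S = ∅ := Finset.card_eq_zero.mp (by omega)
    subst this
    exact ⟨0, by simp, by simpa using (Guardable.empty (G := G) (D := D))⟩
  | succ n ih =>
    intro S hS hball
    rcases Nat.lt_or_ge ((2 * R * Q) ^ R) S.card with hbig | hsmall
    · set μ : ℕ → ℕ := fun r => Finset.univ.sup (fun v => (S.filter (fun h => G.dist v h ≤ r)).card)
        with hμ
      have hle : ∀ r v, (S.filter (fun h => G.dist v h ≤ r)).card ≤ μ r := by
        intro r v
        exact Finset.le_sup (f := fun v => (S.filter (fun h => G.dist v h ≤ r)).card)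
          (Finset.mem_univ v)
      have h0 : μ 0 ≤ 1 := by
        refine Finset.sup_le ?_
        intro v _
        rw [Finset.card_le_one]
        intro a ha b hb
        rw [Finset.mem_filter] at ha hb
        have h1 := hG.dist_eq_zero_iff.mp (Nat.le_zero.mp ha.2)
        have h2 := hG.dist_eq_zero_iff.mp (Nat.le_zero.mp hb.2)
        rw [← h1, ← h2]
      have hR : (2 * R * Q) ^ R < μ R := by
        refine lt_of_lt_of_le hbig ?_
        have := hle R v0
        rwa [Finset.filter_true_of_mem hball] at this
      obtain ⟨r, hr1, hr2, hr3⟩ := growth_step μ R (2 * R * Q) h0 hR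
      obtain ⟨v, _, hv⟩ : ∃ v ∈ (Finset.univ : Finset V),
          μ r = (S.filter (fun h => G.dist v h ≤ r)).card :=
        Finset.exists_mem_eq_sup _ ⟨v0, Finset.mem_univ _⟩ _
      set S' := S.filter (fun h => G.dist v h ≤ r) with hS'
      have hg1 : Guardable G D (↑S' : Set V) (2 * r * μ (r - 1)) := by
        refine guardable_dispatch hG D S' v r (μ (r - 1)) hr1 ?_ ?_
        · intro h hh
          exact (Finset.mem_filter.mp hh).2
        · intro z
          refine le_trans (Finset.card_le_card ?_) (hle (r - 1) z)
          exact Finset.filter_subset_filter _ (Finset.filter_subset _ _)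
      have hpos : 1 ≤ S'.card := by
        obtain ⟨a, ha⟩ : S.Nonempty := Finset.card_pos.mp (by omega)
        have h1 : 1 ≤ (S.filter (fun h => G.dist a h ≤ r)).card := by
          rw [Nat.one_le_iff_ne_zero, Finset.card_ne_zero]
          exact ⟨a, Finset.mem_filter.mpr ⟨ha, by simp⟩⟩
        exact le_trans h1 (by rw [← hv]; exact hle r a)
      have hsub : S' ⊆ S := Finset.filter_subset _ _
      have hcard : (S \ S').card + S'.card = S.card := Finset.card_sdiff_add_card_eq_card hsub
      obtain ⟨w, hw1, hw2⟩ := ih (S \ S') (by omega)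
        (fun h hh => hball h (Finset.mem_sdiff.mp hh).1)
      refine ⟨w + 2 * r * μ (r - 1), ?_, ?_⟩
      · have h1 : Q * (2 * r * μ (r - 1)) ≤ S'.card := by
          rw [← hv]
          refine le_trans ?_ hr3
          calc Q * (2 * r * μ (r - 1)) = 2 * r * Q * μ (r - 1) := by ring
            _ ≤ 2 * R * Q * μ (r - 1) := by
              refine Nat.mul_le_mul_right _ (Nat.mul_le_mul_right _ ?_)
              omega
        rw [mul_add]
        omega
      · refine (hw2.union hg1).mono (subset_refl _) ?_ le_rfl
        intro y hy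
        by_cases h : y ∈ S'
        · exact Or.inr (by simpa using h)
        · left
          simp only [Finset.coe_sdiff, Set.mem_sdiff, Finset.mem_coe] at hy ⊢
          exact ⟨hy, h⟩
    · refine ⟨S.card, ?_, guardable_finset hG D S⟩
      have := Nat.mul_le_mul_left Q hsmall
      omega

end CopPath
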