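import Pool.Agent.Work.MP_8941bc_co.Rot.Game

/-!
# Guarding sets of vertices against a robber confined to `D`
-/

namespace CopPath

universe u
variable {V : Type u} {G : SimpleGraph V} {ι κ : Type}

/-- `I` is an invariant with which the cops `ι` guard `B` against a robber in `D`. -/
structure IsGuard (G : SimpleGraph V) (D B : Set V) (I : (ι → V) → V → Prop) : Prop where
  safe : ∀ c z, I c z → z ∈ D → z ∈ B → ∃ i, c i = z
  cap : ∀ c z, I c z → z ∈ D → ∀ z', Step G z z' → z' ∈ B → ∃ i, Step G (c i) z'
  keep : ∀ c z, I c z → z ∈ D → ∀ z', Step G z z' → z' ∈ D →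
    ∃ c' : ι → V, (∀ i, Step G (c i) (c' i)) ∧ I c' z'
  reach : ∀ c z, z ∈ D → Reach G D I c z

theorem IsGuard.mono {D D' B B' : Set V} {I : (ι → V) → V → Prop} (h : IsGuard G D B I)
    (hD : D' ⊆ D) (hB : B' ⊆ B) : IsGuard G D' B' I where
  safe c z hI hz hB' := h.safe c z hI (hD hz) (hB hB')
  cap c z hI hz z' hs hz' := h.cap c z hI (hD hz) z' hs (hB hz')
  keep c z hI hz z' hs hz' := h.keep c z hI (hD hz) z' hs (hD hz')
  reach c z hz := (h.reach c z (hD hz)).mono hD (fun _ _ h => h)

/-- forcing with additional idle cops -/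
theorem Reach.lift {D : Set V} {P : (ι → V) → V → Prop} (f : ι → κ) (hf : Function.Injective f)
    {c : κ → V} {z : V} (h : Reach G D P (fun i => c (f i)) z) :
    Reach G D (fun (c : κ → V) z => P (fun i => c (f i)) z) c z := by
  classical
  generalize hc : (fun i => c (f i)) = c0 at h
  induction h generalizing c with
  | here c0 z h =>
    subst hc
    exact Reach.here c z h
  | step c0 z resp h1 h2 ih =>
    subst hc
    refine Reach.step c z (fun z' => Function.extend f (resp z') c) ?_ ?_
    · intro z' i
      by_cases hi : ∃ a, f a = i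
      · obtain ⟨a, rfl⟩ := hi
        rw [hf.extend_apply]
        exact h1 z' a
      · rw [Function.extend_apply' _ _ _ hi]
        exact Step.refl _
    · intro z' hs hz'
      refine ih z' hs hz' ?_
      funext i
      rw [hf.extend_apply]

theorem IsGuard.lift {D B : Set V} {I : (ι → V) → V → Prop} (h : IsGuard G D B I) (f : ι → κ)
    (hf : Function.Injective f) :
    IsGuard G D B (fun (c : κ → V) z => I (fun i => c (f i)) z) where
  safe c z hI hz hB := by
    obtain ⟨i, hi⟩ := h.safe _ z hI hz hB
    exact ⟨f i, hi⟩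
  cap c z hI hz z' hs hz' := by
    obtain ⟨i, hi⟩ := h.cap _ z hI hz z' hs hz'
    exact ⟨f i, hi⟩
  keep c z hI hz z' hs hz' := by
    classical
    obtain ⟨c', h1, h2⟩ := h.keep _ z hI hz z' hs hz'
    refine ⟨Function.extend f c' c, ?_, ?_⟩
    · intro i
      by_cases hi : ∃ a, f a = i
      · obtain ⟨a, rfl⟩ := hi
        rw [hf.extend_apply]
        exact h1 a
      · rw [Function.extend_apply' _ _ _ hi]
        exact Step.refl _
    · have : (fun i => Function.extend f c' c (f i)) = c' := by
        funext i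
        rw [hf.extend_apply]
      rw [this]
      exact h2
  reach c z hz := Reach.lift f hf (h.reach _ z hz)

/-- both guards together -/
theorem IsGuard.union {D B B' : Set V} {I : (ι → V) → V → Prop} {I' : (κ → V) → V → Prop}
    (h : IsGuard G D B I) (h' : IsGuard G D B' I') :
    IsGuard G D (B ∪ B') (fun (c : ι ⊕ κ → V) z =>
      I (fun i => c (Sum.inl i)) z ∧ I' (fun i => c (Sum.inr i)) z) where
  safe c z hI hz hB := by
    rcases hB with hB | hB
    · obtain ⟨i, hi⟩ := h.safe _ z hI.1 hz hB
      exact ⟨_, hi⟩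
    · obtain ⟨i, hi⟩ := h'.safe _ z hI.2 hz hB
      exact ⟨_, hi⟩
  cap c z hI hz z' hs hz' := by
    rcases hz' with hz' | hz'
    · obtain ⟨i, hi⟩ := h.cap _ z hI.1 hz z' hs hz'
      exact ⟨_, hi⟩
    · obtain ⟨i, hi⟩ := h'.cap _ z hI.2 hz z' hs hz'
      exact ⟨_, hi⟩
  keep c z hI hz z' hs hz' := by
    obtain ⟨c1, h1, h2⟩ := h.keep _ z hI.1 hz z' hs hz'
    obtain ⟨c1', h1', h2'⟩ := h'.keep _ z hI.2 hz z' hs hz'
    refine ⟨Sum.elim c1 c1', ?_, ?_, ?_⟩
    · rintro (i | i)
      · exact h1 i
      · exact h1' i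
    · exact h2
    · exact h2'
  reach c z hz := by
    have key : ∀ (c' : κ → V) (z : V), Reach G D I' c' z → z ∈ D → ∀ c : ι ⊕ κ → V,
        (fun i => c (Sum.inr i)) = c' → I (fun i => c (Sum.inl i)) z →
        Reach G D (fun (c : ι ⊕ κ → V) z =>
          I (fun i => c (Sum.inl i)) z ∧ I' (fun i => c (Sum.inr i)) z) c z := by
      intro c' z hr
      induction hr with
      | here c' z h =>
        intro hz c hc hI
        subst hc
        exact Reach.here _ _ ⟨hI, h⟩
      | step c' z resp h1 h2 ih =>
        intro hz c hc hI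
        subst hc
        refine Reach.of_forall ?_
        intro z' hs hz'
        obtain ⟨c1, h3, h4⟩ := h.keep _ z hI hz z' hs hz'
        refine ⟨Sum.elim c1 (resp z'), ?_, ?_⟩
        · rintro (i | i)
          · exact h3 i
          · exact h1 z' i
        · exact ih z' hs hz' hz' (Sum.elim c1 (resp z')) rfl h4
    -- first reach the left invariant, keeping track of membership in `D`
    have key0 : ∀ (c0 : ι → V) (z : V), Reach G D I c0 z → z ∈ D → ∀ c : ι ⊕ κ → V,
        (fun i => c (Sum.inl i)) = c0 →
        Reach G D (fun (c : ι ⊕ κ → V) z =>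
          I (fun i => c (Sum.inl i)) z ∧ I' (fun i => c (Sum.inr i)) z) c z := by
      intro c0 z hr
      induction hr with
      | here c0 z h0 =>
        intro hz c hc
        subst hc
        exact key _ z (h'.reach _ z hz) hz c rfl h0
      | step c0 z resp h1 h2 ih =>
        intro hz c hc
        subst hc
        refine Reach.of_forall ?_
        intro z' hs hz'
        refine ⟨Sum.elim (resp z') (fun i => c (Sum.inr i)), ?_, ?_⟩
        · rintro (i | i)
          · exact h1 z' i
          · exact Step.refl _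
        · exact ih z' hs hz' hz' (Sum.elim (resp z') (fun i => c (Sum.inr i))) rfl
    exact key0 _ z (h.reach _ z hz) hz c rfl

/-- `m` cops can guard `B` against a robber in `D` -/
def Guardable (G : SimpleGraph V) (D B : Set V) (m : ℕ) : Prop :=
  ∃ I : (Fin m → V) → V → Prop, IsGuard G D B I

theorem Guardable.of_index {D B : Set V} {ι : Type} [Fintype ι] {I : (ι → V) → V → Prop}
    (h : IsGuard G D B I) {m : ℕ} (hm : Fintype.card ι ≤ m) : Guardable G D B m := by
  classical
  obtain ⟨f⟩ : Nonempty (ι ↪ Fin m) := by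
    rw [Function.Embedding.nonempty_iff_card_le]
    simpa using hm
  exact ⟨_, h.lift f f.injective⟩

theorem Guardable.mono {D D' B B' : Set V} {m m' : ℕ} (h : Guardable G D B m) (hD : D' ⊆ D)
    (hB : B' ⊆ B) (hm : m ≤ m') : Guardable G D' B' m' := by
  obtain ⟨I, hI⟩ := h
  exact Guardable.of_index (hI.mono hD hB) (by simpa using hm)

theorem Guardable.union {D B B' : Set V} {m m' : ℕ} (h : Guardable G D B m)
    (h' : Guardable G D B' m') : Guardable G D (B ∪ B') (m + m') := by
  obtain ⟨I, hI⟩ := h
  obtain ⟨I', hI'⟩ := h'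
  exact Guardable.of_index (hI.union hI') (by simp)

theorem Guardable.empty {D : Set V} : Guardable G D ∅ 0 :=
  ⟨fun _ _ => True,
    { safe := fun _ _ _ _ h => absurd h (Set.notMem_empty _)
      cap := fun _ _ _ _ _ _ h => absurd h (Set.notMem_empty _)
      keep := fun c _ _ _ _ _ _ => ⟨c, fun _ => Step.refl _, trivial⟩
      reach := fun _ _ _ => Reach.here _ _ trivial }⟩

/-- the outside boundary -/
def Bd (G : SimpleGraph V) (D : Set V) : Set V := {v | v ∉ D ∧ ∃ z ∈ D, G.Adj z v}

theorem Win.of_cap {c : ι → V} {z : V} (h : ∃ i, c i = z) : Win G c z := Reach.here _ _ h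

/-- replacing one guard by another one -/
theorem win_of_transition {D Bo Bn : Set V} {J : (ι → V) → V → Prop} {I : (κ → V) → V → Prop}
    (hN : Bd G D ⊆ Bo) (gO : IsGuard G D Bo J) (gN : IsGuard G D Bn I)
    (H : ∀ (c : ι ⊕ κ → V) z, z ∈ D → J (fun i => c (Sum.inl i)) z →
      I (fun i => c (Sum.inr i)) z → Win G c z) :
    ∀ (c : ι ⊕ κ → V) z, z ∈ D → J (fun i => c (Sum.inl i)) z → Win G c z := by
  classical
  have key : ∀ (c' : κ → V) (z : V), Reach G D I c' z → z ∈ D → ∀ c : ι ⊕ κ → V,
        (fun i => c (Sum.inr i)) = c' → J (fun i => c (Sum.inl i)) z → Win G c z := by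
    intro c' z hr
    induction hr with
    | here c' z h =>
      intro hz c hc hJ
      subst hc
      exact H c z hz hJ h
    | step c' z resp h1 h2 ih =>
      intro hz c hc hJ
      subst hc
      refine Reach.of_forall ?_
      intro z' hs _
      by_cases hz' : z' ∈ D
      · obtain ⟨c1, h3, h4⟩ := gO.keep _ z hJ hz z' hs hz'
        refine ⟨Sum.elim c1 (resp z'), ?_, ?_⟩
        · rintro (i | i)
          · exact h3 i
          · exact h1 z' i
        · exact ih z' hs hz' hz' (Sum.elim c1 (resp z')) rfl h4
      · have hzB : z' ∈ Bd G D := by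
          refine ⟨hz', z, hz, ?_⟩
          rcases hs with hs | hs
          · exact absurd (hs ▸ hz) hz'
          · exact hs
        obtain ⟨i, hi⟩ := gO.cap _ z hJ hz z' hs (hN hzB)
        refine ⟨Function.update c (Sum.inl i) z', ?_, ?_⟩
        · intro j
          by_cases hj : j = Sum.inl i
          · subst hj
            rw [Function.update_self]
            exact hi
          · rw [Function.update_of_ne hj]
            exact Step.refl _
        · exact Win.of_cap ⟨Sum.inl i, by rw [Function.update_self]⟩
  intro c z hz hJ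
  exact key _ z (gN.reach _ z hz) hz c rfl hJ

/-- renaming the cops -/
theorem Win.rename {c : ι → V} {z : V} (f : κ → ι) (hf : Function.Bijective f)
    (h : Win G (fun i => c (f i)) z) : Win G c z := by
  unfold Win at h ⊢
  have := Reach.lift f hf.1 h
  refine this.mono (subset_refl _) ?_
  rintro c z ⟨i, hi⟩
  exact ⟨_, hi⟩

end CopPath
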