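import Pool.Agent.Work.MP_8941bc_co.Rot.Main

/-!
# The main induction, continued
-/

namespace CopPath

universe u
variable {V : Type u} {G : SimpleGraph V}

/-- conversion step -/
theorem St.convert [Finite V] [DecidableEq V] (hG : G.Connected) {Em Q R : ℕ} {D : Set V} {o : V}
    {L : List V} {E : Finset V} {Y : Set V} {W : ℕ}
    (h : St G Em Q D o L E Y W) {F : Finset V} (hFE : F ⊆ E) (hF : ∀ a ∈ F, G.dist o a ≤ R)
    (hc : Q * (2 * R * Q) ^ R ≤ F.card) :
    ∃ w, St G Em Q D o L (E \ F) (Y ∪ ↑F) (W + w) := by
  obtain ⟨w, h1, h2⟩ := guardable_ball hG D o R Q F.card F le_rfl hF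
  have hcard : (E \ F).card + F.card = E.card := Finset.card_sdiff_add_card_eq_card hFE
  refine ⟨w, h.conn, h.chain, h.nodup, h.disj, h.head, ?_, ?_, ?_, ?_, ?_⟩
  · intro e he
    exact h.Esub e (Finset.mem_sdiff.mp he).1
  · intro v hv
    rcases h.bd hv with hv' | hv'
    · by_cases hvF : v ∈ F
      · exact Or.inr (Or.inr hvF)
      · exact Or.inl (Finset.mem_coe.mpr (Finset.mem_sdiff.mpr ⟨hv', hvF⟩))
    · exact Or.inr (Or.inl hv')
  · exact h.guard.union h2
  · have h3 := h.count
    rw [Nat.mul_add]
    omega
  · have := h.Ecard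
    omega

theorem split_idx [DecidableEq V] {M : List V} (hn : M.Nodup) {a : V} (ha : a ∈ M) :
    ∃ L0 L2, M = L0 ++ a :: L2 ∧ M.idxOf a = L0.length := by
  obtain ⟨L0, L2, h⟩ := List.append_of_mem ha
  refine ⟨L0, L2, h, ?_⟩
  rw [h] at hn
  rw [List.nodup_append] at hn
  have h1 : a ∉ L0 := fun hh => hn.2.2 a hh a List.mem_cons_self rfl
  rw [h, List.idxOf_append_of_notMem h1, List.idxOf_cons_self, Nat.add_zero]

theorem good_of_St [Finite V] (hG : G.Connected) {p Em Q s m : ℕ} (hQ : 1 ≤ Q) (hs : 1 ≤ s)
    (hp : ∀ L : List V, L.IsChain G.Adj → L.Nodup → L.length ≤ p)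
    (hbig : Q * (p / s + 1) + Q * (2 * (s + Q) * Q) ^ (s + Q) ≤ Em)
    (hm : ∀ W, Q * W ≤ 2 * p → Em + W + 1 ≤ m) :
    ∀ (n : ℕ) (D : Set V) (o : V) (L : List V) (E : Finset V) (Y : Set V) (W : ℕ),
      St G Em Q D o L E Y W → D.ncard * (Em + 1) + E.card < n → Good G m D := by
  classical
  intro n
  induction n with
  | zero => intro D o L E Y W _ h; omega
  | succ n ih =>
    intro D o L E Y W h hn
    have hlen : (o :: L).length ≤ p := hp _ h.chain h.nodup
    have hcount := h.count
    have hmW : Em + W + 1 ≤ m := hm W (by omega)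
    have hEm := h.Ecard
    -- shrinking the territory
    have hshrink : ∀ (X : Set V) (z x : V), z ∈ D → z ∉ X → x ∈ X → x ∈ D → ∀ E' : Finset V,
        E'.card ≤ Em → (Cp G D X z).ncard * (Em + 1) + E'.card < n := by
      intro X z x hz hzX hxX hxD E' hE'
      have h1 : (Cp G D X z).ncard < D.ncard := by
        refine Set.ncard_lt_ncard ?_ (Set.toFinite _)
        refine ⟨fun y hy => (Cp.subset hz hzX hy).1, fun hh => ?_⟩
        exact (Cp.subset hz hzX (hh hxD)).2 hxX
      have h2 : ((Cp G D X z).ncard + 1) * (Em + 1) ≤ D.ncard * (Em + 1) :=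
        Nat.mul_le_mul_right _ h1
      rw [Nat.add_mul] at h2
      omega
    rcases Nat.lt_or_ge E.card Em with hE | hE
    · -- depth first step
      obtain ⟨_, x, hx, hxo⟩ := h.head
      have hg : Guardable G D (Bd G D ∪ {x}) m := by
        refine (((guardable_finset hG D E).union h.guard).union
          (guardable_singleton hG D x)).mono (subset_refl _) ?_ (by omega)
        exact Set.union_subset_union_left _ h.bd
      refine good_of_comp hg ?_
      intro z hz hzx
      have h1 := h.dfs hE hx hxo.symm hz hzx
      exact ih _ _ _ _ _ _ h1 (hshrink _ z x hz hzx rfl hx _ h1.Ecard)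
    · have hEeq : E.card = Em := le_antisymm hEm hE
      set idx : V → ℕ := fun v => (o :: L).idxOf v with hidx
      set A : V → Finset V := fun a => E.filter (fun b => idx b < idx a ∧ idx a ≤ idx b + s) with hA
      set F := E.filter (fun a => ¬ (A a).card < Q) with hF
      have hpoor : (E.filter (fun a => (A a).card < Q)).card ≤ Q * (p / s + 1) := by
        refine (few_poor E idx ?_ Q s (o :: L).length hs ?_).trans ?_
        · intro a ha b _ hab
          exact (List.idxOf_inj (h.Esub a ha).1).mp hab
        · intro a ha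
          exact List.idxOf_lt_length_iff.mpr (h.Esub a ha).1
        · refine Nat.mul_le_mul_left _ ?_
          have := Nat.div_le_div_right (c := s) hlen
          omega
      have hrich : Q * (2 * (s + Q) * Q) ^ (s + Q) ≤ F.card := by
        have h1 := Finset.card_filter_add_card_filter_not (s := E) (fun a => (A a).card < Q)
        rw [hEeq] at h1
        change _ + F.card = Em at h1
        omega
      have hFpos : 1 ≤ F.card := by
        refine le_trans ?_ hrich
        have h1 : 0 < 2 * (s + Q) * Q := by positivity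
        have h2 : 0 < (2 * (s + Q) * Q) ^ (s + Q) := Nat.pow_pos h1
        exact Nat.mul_pos hQ h2
      by_cases hall : ∀ a ∈ F, G.dist o a ≤ s + Q
      · obtain ⟨w, h1⟩ := h.convert hG (Finset.filter_subset _ _) hall hrich
        have hcard : (E \ F).card + F.card = E.card :=
          Finset.card_sdiff_add_card_eq_card (Finset.filter_subset _ _)
        have hlt : D.ncard * (Em + 1) + (E \ F).card < n := by omega
        exact ih _ _ _ _ _ _ h1 hlt
      · push Not at hall
        obtain ⟨a, haF, hfar⟩ := hall
        obtain ⟨haE, haQ⟩ := Finset.mem_filter.mp haF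
        obtain ⟨k, q, hk, hdist, hqD, hqadj, hoq, hqa, hqinj, hgq⟩ :=
          through hG h.conn h.head (h.Esub a haE).2
        obtain ⟨X, hX⟩ : ∃ X : Set V, X = {v | ∃ i, 1 ≤ i ∧ i ≤ k ∧ q i = v} := ⟨_, rfl⟩
        have hg : Guardable G D (Bd G D ∪ X) m := by
          refine (((guardable_finset hG D E).union h.guard).union hgq).mono (subset_refl _) ?_
            (by omega)
          rw [hX]
          exact Set.union_subset_union_left _ h.bd
        refine good_of_comp hg ?_
        intro z hz hzX
        have hq1X : q 1 ∈ X := by rw [hX]; exact ⟨1, le_rfl, hk, rfl⟩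
        by_cases hrot : ∃ a' ∈ A a, a' ∈ Bd G (Cp G D X z)
        · -- rotation
          obtain ⟨a', ha', hmax⟩ := Finset.exists_max_image
            ((A a).filter (fun b => b ∈ Bd G (Cp G D X z))) idx (by
              obtain ⟨a', h1, h2⟩ := hrot
              exact ⟨a', Finset.mem_filter.mpr ⟨h1, h2⟩⟩)
          obtain ⟨ha'A, ha'B⟩ := Finset.mem_filter.mp ha'
          obtain ⟨ha'E, ha'1, ha'2⟩ := Finset.mem_filter.mp ha'A
          obtain ⟨L0, L2, hL0, hi0⟩ := split_idx h.nodup (h.Esub a haE).1
          have hidxa : idx a = L0.length := hi0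
          have ha'L0 : a' ∈ L0 := by
            by_contra hcon
            have : idx a' = L0.length + (a :: L2).idxOf a' := by
              simp only [hidx]
              rw [hL0, List.idxOf_append_of_notMem hcon]
            omega
          obtain ⟨L3, L1, hL3⟩ := List.append_of_mem ha'L0
          have hM : o :: L = L3 ++ a' :: (L1 ++ a :: L2) := by
            rw [hL0, hL3]; simp
          have hnod := h.nodup
          rw [hM, List.nodup_append] at hnod
          obtain ⟨_, hnod2, hnod3⟩ := hnod
          have hi1 : idx a' = L3.length := by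
            simp only [hidx]
            rw [hM, List.idxOf_append_of_notMem
              (fun hh => hnod3 a' hh a' List.mem_cons_self rfl), List.idxOf_cons_self, Nat.add_zero]
          have hlen0 : L0.length = L3.length + (L1.length + 1) := by
            rw [hL3]; simp
          obtain ⟨L', hL'⟩ := h.rotate hk hqD hqadj hoq hqa hqinj hgq hX hz hzX hM ha'B (by
            intro e he heL1 heB
            have he1 : e ∉ L3 := fun hh => hnod3 e hh e
              (List.mem_cons_of_mem _ (List.mem_append_left _ heL1)) rfl
            have he2 : e ≠ a' := by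
              rintro rfl
              exact (List.nodup_cons.mp hnod2).1 (List.mem_append_left _ heL1)
            have he3 : idx e = L3.length + (L1.idxOf e + 1) := by
              simp only [hidx]
              rw [hM, List.idxOf_append_of_notMem he1, List.idxOf_cons_ne _ (Ne.symm he2),
                List.idxOf_append_of_mem heL1]
            have he4 : L1.idxOf e < L1.length := List.idxOf_lt_length_iff.mpr heL1
            have he5 := hmax e (Finset.mem_filter.mpr
              ⟨Finset.mem_filter.mpr ⟨he, by omega, by omega⟩, heB⟩)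
            omega) (by omega)
          exact ih _ _ _ _ _ _ hL' (hshrink _ z (q 1) hz hzX hq1X (hqD 1 le_rfl hk) _ hL'.Ecard)
        · -- release
          push Not at hrot
          obtain ⟨x, hxX, hxB⟩ := Cp.attach h.conn hz hzX hq1X (hqD 1 le_rfl hk)
          have hxX' := hxX
          rw [hX] at hxX'
          obtain ⟨j, hj1, hj2, hj3⟩ := hxX'
          rw [← hj3] at hxB
          obtain ⟨L', hL'⟩ := h.release hqD hqadj hoq hqinj hgq hX hz hzX hj1 hj2 hxB
            (A := A a) (Finset.filter_subset _ _) hrot (Nat.not_lt.mp haQ)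
          exact ih _ _ _ _ _ _ hL' (hshrink _ z (q 1) hz hzX hq1X (hqD 1 le_rfl hk) _ hL'.Ecard)

/-- the cop number bound -/
theorem copsWin_of_bound [Finite V] (hG : G.Connected) {p Em Q s m : ℕ} (hQ : 1 ≤ Q) (hs : 1 ≤ s)
    (hp : ∀ L : List V, L.IsChain G.Adj → L.Nodup → L.length ≤ p)
    (hbig : Q * (p / s + 1) + Q * (2 * (s + Q) * Q) ^ (s + Q) ≤ Em)
    (hm : ∀ W, Q * W ≤ 2 * p → Em + W + 1 ≤ m) : CopsWin G (m + m) := by
  classical
  have hm1 : 1 ≤ m := by have := hm 0 (by omega); omega
  obtain ⟨x⟩ := hG.nonempty
  refine copsWin_of_win (fun _ => x) ?_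
  intro z
  by_cases hzx : z = x
  · subst hzx
    exact Win.of_cap ⟨⟨0, by omega⟩, rfl⟩
  · refine Win.rename (κ := Fin m ⊕ Fin m) finSumFinEquiv finSumFinEquiv.bijective ?_
    have hzU : z ∈ (Set.univ : Set V) := Set.mem_univ _
    have hzX : z ∉ ({x} : Set V) := hzx
    have hconn : Conn G (Set.univ : Set V) := by
      intro a _ b _
      obtain ⟨w⟩ := hG.preconnected a b
      induction w with
      | nil => exact Relation.ReflTransGen.refl
      | cons hadj _ ih =>
        exact Relation.ReflTransGen.head ⟨hadj, Set.mem_univ _⟩ (ih (Set.mem_univ _) (Set.mem_univ _))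
    have hxB : x ∈ Bd G (Cp G Set.univ {x} z) := by
      obtain ⟨x', hx', hx''⟩ := Cp.attach hconn hzU hzX (x0 := x) rfl (Set.mem_univ _)
      rw [Set.mem_singleton_iff] at hx'
      rw [hx'] at hx''
      exact hx''
    have hBd : Bd G (Cp G Set.univ {x} z) ⊆ {x} := by
      intro v hv
      rcases Cp.bd hzU hzX hv with hv' | hv'
      · exact absurd (Set.mem_univ v) hv'.1
      · exact hv'
    have hEm1 : 1 ≤ Em := by
      have h1 : 0 < Q * (p / s + 1) := Nat.mul_pos hQ (Nat.succ_pos _)
      omega
    have hSt : St G Em Q (Cp G Set.univ {x} z) x [] {x} ∅ 0 := by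
      refine ⟨Cp.conn, List.isChain_singleton _, List.nodup_singleton _, ?_, hxB, ?_, ?_,
        Guardable.empty, ?_, ?_⟩
      · intro v hv
        rw [List.mem_singleton] at hv
        rw [hv]
        exact hxB.1
      · intro e he
        rw [Finset.mem_singleton] at he
        rw [he]
        exact ⟨List.mem_cons_self, hxB⟩
      · intro v hv
        left
        rw [Finset.coe_singleton]
        exact hBd hv
      · simp
      · simpa using hEm1
    have hgood := good_of_St hG hQ hs hp hbig hm _ _ _ _ _ _ _ hSt (Nat.lt_succ_self _)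
    have hguard := (isGuard_singleton hG (Cp G Set.univ {x} z) x).lift (κ := Fin m)
      (fun _ => ⟨0, by omega⟩) (fun a b _ => Subsingleton.elim _ _)
    exact hgood {x} _ hBd hguard _ z Cp.self_mem rfl

end CopPath
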