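import Pool.Agent.Work.MP_8941bc_co.Rot.Spine

/-!
# The main induction
-/

namespace CopPath

universe u
variable {V : Type u} {G : SimpleGraph V}

/-- `D` is good: a team of `m` cops guarding the boundary of `D` wins with the help of `m` more. -/
def Good (G : SimpleGraph V) (m : ℕ) (D : Set V) : Prop :=
  ∀ (B : Set V) (J : (Fin m → V) → V → Prop), Bd G D ⊆ B → IsGuard G D B J →
    ∀ (c : Fin m ⊕ Fin m → V) (z : V), z ∈ D → J (fun i => c (Sum.inl i)) z → Win G c z

theorem good_of_comp {m : ℕ} {D X : Set V} (hg : Guardable G D (Bd G D ∪ X) m)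
    (H : ∀ z ∈ D, z ∉ X → Good G m (Cp G D X z)) : Good G m D := by
  intro B J hB gJ c z hz hJ
  obtain ⟨I, gI⟩ := hg
  refine win_of_transition hB gJ gI ?_ c z hz hJ
  intro c z hz _ hI
  by_cases hzX : z ∈ X
  · obtain ⟨i, hi⟩ := gI.safe _ z hI hz (Or.inr hzX)
    exact Win.of_cap ⟨_, hi⟩
  · refine Win.rename (κ := Fin m ⊕ Fin m) Sum.swap ?_ ?_
    · exact (Equiv.sumComm (Fin m) (Fin m)).bijective
    · refine H z hz hzX (Bd G D ∪ X) I (Cp.bd hz hzX) (gI.mono ?_ (subset_refl _)) _ z
        Cp.self_mem hI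
      intro y hy
      exact (Cp.subset hz hzX hy).1

/-- the structure kept for the territory `D`: the spine is the path `o :: L` with end `o` -/
structure St (G : SimpleGraph V) (Em Q : ℕ) (D : Set V) (o : V) (L : List V) (E : Finset V)
    (Y : Set V) (W : ℕ) : Prop where
  conn : Conn G D
  chain : (o :: L).IsChain G.Adj
  nodup : (o :: L).Nodup
  disj : ∀ v ∈ o :: L, v ∉ D
  head : o ∈ Bd G D
  Esub : ∀ e ∈ E, e ∈ o :: L ∧ e ∈ Bd G D
  bd : Bd G D ⊆ ↑E ∪ Y
  guard : Guardable G D Y W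
  count : Q * W + 2 * E.card ≤ 2 * (o :: L).length
  Ecard : E.card ≤ Em

open Classical in
/-- depth first step -/
theorem St.dfs {Em Q : ℕ} {D : Set V} {o : V} {L : List V} {E : Finset V} {Y : Set V} {W : ℕ}
    (h : St G Em Q D o L E Y W) (hE : E.card < Em) {x : V} (hx : x ∈ D) (hox : G.Adj o x) {z : V}
    (hz : z ∈ D) (hzx : z ∉ ({x} : Set V)) :
    St G Em Q (Cp G D {x} z) x (o :: L)
      ((insert x E).filter (fun v => v ∈ Bd G (Cp G D {x} z))) Y W := by
  have hsub : ∀ {y}, y ∈ Cp G D {x} z → y ∈ D := fun hy => (Cp.subset hz hzx hy).1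
  have hxL : x ∉ o :: L := fun hh => h.disj x hh hx
  have hxC : x ∉ Cp G D {x} z := fun hh => (Cp.subset hz hzx hh).2 rfl
  have hcard : ((insert x E).filter (fun v => v ∈ Bd G (Cp G D {x} z))).card ≤ E.card + 1 :=
    (Finset.card_filter_le _ _).trans (Finset.card_insert_le _ _)
  refine ⟨Cp.conn, ?_, ?_, ?_, ?_, ?_, ?_, ?_, ?_, ?_⟩
  · exact List.IsChain.cons h.chain (by intro y hy; simp at hy; subst hy; exact hox.symm)
  · exact List.nodup_cons.mpr ⟨hxL, h.nodup⟩
  · intro v hv
    rcases List.mem_cons.mp hv with hv | hv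
    · rw [hv]; exact hxC
    · exact fun hh => h.disj v hv (hsub hh)
  · obtain ⟨x', hx', hx''⟩ := Cp.attach h.conn hz hzx (x0 := x) rfl hx
    rw [Set.mem_singleton_iff] at hx'
    rw [hx'] at hx''
    exact hx''
  · intro e he
    obtain ⟨he1, he2⟩ := Finset.mem_filter.mp he
    refine ⟨?_, he2⟩
    rcases Finset.mem_insert.mp he1 with he1 | he1
    · rw [he1]; exact List.mem_cons_self
    · exact List.mem_cons_of_mem _ (h.Esub e he1).1
  · intro v hv
    rcases Cp.bd hz hzx hv with hv' | hv'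
    · rcases h.bd hv' with hv'' | hv''
      · left
        exact Finset.mem_coe.mpr (Finset.mem_filter.mpr ⟨Finset.mem_insert_of_mem hv'', hv⟩)
      · exact Or.inr hv''
    · left
      rw [Set.mem_singleton_iff] at hv'
      exact Finset.mem_coe.mpr (Finset.mem_filter.mpr ⟨by rw [hv']; exact Finset.mem_insert_self _ _, hv⟩)
  · exact h.guard.mono (fun y hy => hsub hy) (subset_refl _) le_rfl
  · have h1 := h.count
    simp only [List.length_cons] at h1 ⊢
    omega
  · omega

open Classical in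
/-- release step -/
theorem St.release {Em Q : ℕ} {D : Set V} {o : V} {L : List V} {E : Finset V} {Y : Set V} {W : ℕ}
    (h : St G Em Q D o L E Y W) {k j : ℕ} {p : ℕ → V} (hpD : ∀ i, 1 ≤ i → i ≤ k → p i ∈ D)
    (hpadj : ∀ i, 1 ≤ i → i < k → G.Adj (p i) (p (i + 1))) (hop : G.Adj o (p 1))
    (hpinj : ∀ i j, 1 ≤ i → i ≤ k → 1 ≤ j → j ≤ k → p i = p j → i = j)
    (hg : Guardable G D {v | ∃ i, 1 ≤ i ∧ i ≤ k ∧ p i = v} 1)
    {X : Set V} (hX : X = {v | ∃ i, 1 ≤ i ∧ i ≤ k ∧ p i = v}) {z : V}
    (hz : z ∈ D) (hzX : z ∉ X) (hj : 1 ≤ j) (hjk : j ≤ k) (hjB : p j ∈ Bd G (Cp G D X z))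
    {A : Finset V} (hA : A ⊆ E) (hAB : ∀ a ∈ A, a ∉ Bd G (Cp G D X z)) (hAQ : Q ≤ A.card) :
    ∃ L', St G Em Q (Cp G D X z) (p j) L'
      (E.filter (fun v => v ∈ Bd G (Cp G D X z))) (Y ∪ X) (W + 1) := by
  have hsub : ∀ {y}, y ∈ Cp G D X z → y ∈ D := fun hy => (Cp.subset hz hzX hy).1
  have hcard : (E.filter (fun v => v ∈ Bd G (Cp G D X z))).card + A.card ≤ E.card := by
    rw [← Finset.card_union_of_disjoint]
    · exact Finset.card_le_card (Finset.union_subset (Finset.filter_subset _ _) hA)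
    · rw [Finset.disjoint_left]
      intro a ha ha'
      exact hAB a ha' (Finset.mem_filter.mp ha).2
  have hlist : p j :: ((seg p (j - 1)).reverse ++ (o :: L)) = (seg p j).reverse ++ (o :: L) := by
    obtain ⟨j, rfl⟩ : ∃ j', j = j' + 1 := ⟨j - 1, by omega⟩
    simp [seg, List.range_succ]
  refine ⟨(seg p (j - 1)).reverse ++ (o :: L), Cp.conn, ?_, ?_, ?_, hjB, ?_, ?_, ?_, ?_, ?_⟩
  · rw [hlist, List.isChain_append]
    refine ⟨?_, h.chain, ?_⟩
    · rw [List.isChain_reverse]
      exact (seg_chain (fun i h1 h2 => hpadj i h1 (by omega))).imp (fun a b hab => hab.symm)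
    · intro x hx y hy
      rw [List.getLast?_reverse, seg_head hj] at hx
      simp only [Option.mem_some_iff, List.head?_cons] at hx hy
      rw [← hx, ← hy]
      exact hop.symm
  · rw [hlist, List.nodup_append]
    refine ⟨?_, h.nodup, ?_⟩
    · rw [List.nodup_reverse]
      exact seg_nodup (fun a b h1 h2 h3 h4 => hpinj a b h1 (by omega) h3 (by omega))
    · intro a ha b hb hab
      rw [List.mem_reverse, mem_seg] at ha
      obtain ⟨i, h1, h2, h3⟩ := ha
      exact h.disj b hb (by rw [← hab, ← h3]; exact hpD i h1 (by omega))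
  · rw [hlist]
    intro v hv
    rcases List.mem_append.mp hv with hv | hv
    · rw [List.mem_reverse, mem_seg] at hv
      obtain ⟨i, h1, h2, h3⟩ := hv
      intro hh
      refine (Cp.subset hz hzX hh).2 ?_
      rw [hX]
      exact ⟨i, h1, by omega, h3⟩
    · exact fun hh => h.disj v hv (hsub hh)
  · intro e he
    obtain ⟨he1, he2⟩ := Finset.mem_filter.mp he
    refine ⟨?_, he2⟩
    rw [hlist]
    exact List.mem_append_right _ (h.Esub e he1).1
  · intro v hv
    rcases Cp.bd hz hzX hv with hv' | hv'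
    · rcases h.bd hv' with hv'' | hv''
      · left
        exact Finset.mem_coe.mpr (Finset.mem_filter.mpr ⟨hv'', hv⟩)
      · exact Or.inr (Or.inl hv'')
    · exact Or.inr (Or.inr hv')
  · rw [hX]
    rw [hX] at hsub
    exact (h.guard.union hg).mono (fun y hy => hsub hy) (subset_refl _) le_rfl
  · have h1 := h.count
    rw [hlist]
    simp only [List.length_cons, List.length_append, List.length_reverse, seg_length] at h1 ⊢
    rw [Nat.mul_add, Nat.mul_one]
    omega
  · have h1 := h.Ecard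
    omega

open Classical in
/-- rotation step -/
theorem St.rotate {Em Q : ℕ} {D : Set V} {o : V} {L : List V} {E : Finset V} {Y : Set V} {W : ℕ}
    (h : St G Em Q D o L E Y W) {k : ℕ} (hk : 1 ≤ k) {p : ℕ → V}
    (hpD : ∀ i, 1 ≤ i → i ≤ k → p i ∈ D)
    (hpadj : ∀ i, 1 ≤ i → i < k → G.Adj (p i) (p (i + 1))) (hop : G.Adj o (p 1))
    {a a' : V} (hpa : G.Adj (p k) a)
    (hpinj : ∀ i j, 1 ≤ i → i ≤ k → 1 ≤ j → j ≤ k → p i = p j → i = j)
    (hg : Guardable G D {v | ∃ i, 1 ≤ i ∧ i ≤ k ∧ p i = v} 1)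
    {X : Set V} (hX : X = {v | ∃ i, 1 ≤ i ∧ i ≤ k ∧ p i = v}) {z : V}
    (hz : z ∈ D) (hzX : z ∉ X) {L1 L2 L3 : List V} (hL : o :: L = L3 ++ a' :: (L1 ++ a :: L2))
    (ha' : a' ∈ Bd G (Cp G D X z))
    (hE1 : ∀ e ∈ E, e ∈ L1 → e ∉ Bd G (Cp G D X z)) (hQ : L1.length + Q ≤ k) :
    ∃ L', St G Em Q (Cp G D X z) a' L'
      (E.filter (fun v => v ∈ Bd G (Cp G D X z))) (Y ∪ X) (W + 1) := by
  have hsub : ∀ {y}, y ∈ Cp G D X z → y ∈ D := fun hy => (Cp.subset hz hzX hy).1
  have hcard := Finset.card_filter_le E (fun v => v ∈ Bd G (Cp G D X z))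
  have hlist : a' :: (L3.reverse ++ (seg p k ++ a :: L2)) =
      (L3 ++ [a']).reverse ++ (seg p k ++ a :: L2) := by simp
  have hchain := h.chain
  have hnodup := h.nodup
  rw [hL] at hchain hnodup
  have hL' : L3 ++ a' :: (L1 ++ a :: L2) = (L3 ++ [a']) ++ (L1 ++ a :: L2) := by simp
  have hmem : ∀ v, v ∈ L3 ∨ v = a' ∨ v ∈ L1 ∨ v = a ∨ v ∈ L2 → v ∈ o :: L := by
    intro v hv
    rw [hL]
    simp only [List.mem_append, List.mem_cons]
    tauto
  have hhead : (L3 ++ [a']).head? = some o := by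
    have h1 : (L3 ++ a' :: (L1 ++ a :: L2)).head? = some o := by rw [← hL]; rfl
    cases L3 with
    | nil => simpa using h1
    | cons b L3 => simpa using h1
  refine ⟨L3.reverse ++ (seg p k ++ a :: L2), Cp.conn, ?_, ?_, ?_, ha', ?_, ?_, ?_, ?_, ?_⟩
  · rw [hlist, List.isChain_append]
    rw [hL', List.isChain_append] at hchain
    obtain ⟨hc1, hc2, _⟩ := hchain
    rw [List.isChain_append] at hc2
    refine ⟨?_, ?_, ?_⟩
    · rw [List.isChain_reverse]
      exact hc1.imp (fun a b hab => hab.symm)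
    · rw [List.isChain_append]
      refine ⟨seg_chain hpadj, hc2.2.1, ?_⟩
      intro x hx y hy
      rw [seg_getLast hk] at hx
      simp only [Option.mem_some_iff, List.head?_cons] at hx hy
      rw [← hx, ← hy]
      exact hpa
    · intro x hx y hy
      rw [List.getLast?_reverse, hhead] at hx
      rw [List.head?_append, seg_head hk] at hy
      simp only [Option.mem_some_iff, Option.some_or] at hx hy
      rw [← hx, ← hy]
      exact hop
  · rw [hlist, List.nodup_append]
    rw [hL', List.nodup_append] at hnodup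
    obtain ⟨hn1, hn2, hn3⟩ := hnodup
    rw [List.nodup_append] at hn2
    refine ⟨List.nodup_reverse.mpr hn1, ?_, ?_⟩
    · rw [List.nodup_append]
      refine ⟨seg_nodup hpinj, hn2.2.1, ?_⟩
      intro x hx y hy hxy
      rw [mem_seg] at hx
      obtain ⟨i, h1, h2, h3⟩ := hx
      refine h.disj y (hmem y ?_) (by rw [← hxy, ← h3]; exact hpD i h1 h2)
      rcases List.mem_cons.mp hy with hy | hy
      · exact Or.inr (Or.inr (Or.inr (Or.inl hy)))
      · exact Or.inr (Or.inr (Or.inr (Or.inr hy)))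
    · intro x hx y hy hxy
      rw [List.mem_reverse] at hx
      rcases List.mem_append.mp hy with hy | hy
      · rw [mem_seg] at hy
        obtain ⟨i, h1, h2, h3⟩ := hy
        refine h.disj x (hmem x ?_) (by rw [hxy, ← h3]; exact hpD i h1 h2)
        rcases List.mem_append.mp hx with hx | hx
        · exact Or.inl hx
        · exact Or.inr (Or.inl (by simpa using hx))
      · exact hn3 x hx y (List.mem_append_right _ hy) hxy
  · rw [hlist]
    intro v hv
    rcases List.mem_append.mp hv with hv | hv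
    · rw [List.mem_reverse] at hv
      refine fun hh => h.disj v (hmem v ?_) (hsub hh)
      rcases List.mem_append.mp hv with hv | hv
      · exact Or.inl hv
      · exact Or.inr (Or.inl (by simpa using hv))
    · rcases List.mem_append.mp hv with hv | hv
      · rw [mem_seg] at hv
        intro hh
        refine (Cp.subset hz hzX hh).2 ?_
        rw [hX]
        exact hv
      · refine fun hh => h.disj v (hmem v ?_) (hsub hh)
        rcases List.mem_cons.mp hv with hv | hv
        · exact Or.inr (Or.inr (Or.inr (Or.inl hv)))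
        · exact Or.inr (Or.inr (Or.inr (Or.inr hv)))
  · intro e he
    obtain ⟨he1, he2⟩ := Finset.mem_filter.mp he
    refine ⟨?_, he2⟩
    have h1 := (h.Esub e he1).1
    rw [hL] at h1
    have h2 : e ∉ L1 := fun hh => hE1 e he1 hh he2
    simp only [List.mem_append, List.mem_cons, List.mem_reverse] at h1 ⊢
    tauto
  · intro v hv
    rcases Cp.bd hz hzX hv with hv' | hv'
    · rcases h.bd hv' with hv'' | hv''
      · left
        exact Finset.mem_coe.mpr (Finset.mem_filter.mpr ⟨hv'', hv⟩)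
      · exact Or.inr (Or.inl hv'')
    · exact Or.inr (Or.inr hv')
  · rw [hX]
    rw [hX] at hsub
    exact (h.guard.union hg).mono (fun y hy => hsub hy) (subset_refl _) le_rfl
  · have h1 := h.count
    rw [hL] at h1
    simp only [List.length_cons, List.length_append, List.length_reverse, seg_length] at h1 ⊢
    rw [Nat.mul_add, Nat.mul_one]
    omega
  · have h1 := h.Ecard
    omega

end CopPath
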