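import Pool.Agent.Work.MP_8941bc_co.Rot.Through

/-!
# List combinatorics of the spine
-/

namespace CopPath

universe u
variable {V : Type u} {G : SimpleGraph V}

/-- all but few elements of `E` have many elements of `E` shortly before them -/
theorem few_poor [DecidableEq V] (E : Finset V) (idx : V → ℕ)
    (hinj : ∀ a ∈ E, ∀ b ∈ E, idx a = idx b → a = b) (K s q : ℕ) (hs : 1 ≤ s)
    (hidx : ∀ a ∈ E, idx a < q) :
    (E.filter (fun a => (E.filter (fun b => idx b < idx a ∧ idx a ≤ idx b + s)).card < K)).card
      ≤ K * (q / s + 1) := by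
  set P := E.filter (fun a => (E.filter (fun b => idx b < idx a ∧ idx a ≤ idx b + s)).card < K)
    with hP
  have h1 : P.card ≤ K * (P.image (fun a => idx a / s)).card := by
    refine Finset.card_le_mul_card_image P K ?_
    intro j _
    by_contra hcon
    push Not at hcon
    obtain ⟨a, ha, hmax⟩ := Finset.exists_max_image (P.filter (fun a => idx a / s = j)) idx
      (Finset.card_pos.mp (by omega))
    have haP := (Finset.mem_filter.mp ha).1
    have haj := (Finset.mem_filter.mp ha).2
    have haE := (Finset.mem_filter.mp haP).1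
    have hlt := (Finset.mem_filter.mp haP).2
    have h2 : (P.filter (fun a => idx a / s = j)).erase a ⊆
        E.filter (fun b => idx b < idx a ∧ idx a ≤ idx b + s) := by
      intro b hb
      obtain ⟨hba, hb⟩ := Finset.mem_erase.mp hb
      have hbP := (Finset.mem_filter.mp hb).1
      have hbj := (Finset.mem_filter.mp hb).2
      have hbE := (Finset.mem_filter.mp hbP).1
      have h3 := hmax b hb
      have h4 : idx b ≠ idx a := fun h => hba (hinj b hbE a haE h)
      refine Finset.mem_filter.mpr ⟨hbE, by omega, ?_⟩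
      have h5 := Nat.div_add_mod (idx a) s
      have h6 := Nat.div_add_mod (idx b) s
      have h7 := Nat.mod_lt (idx a) (show 0 < s by omega)
      rw [haj] at h5
      rw [hbj] at h6
      omega
    have h3 := Finset.card_le_card h2
    rw [Finset.card_erase_of_mem ha] at h3
    omega
  have h2 : (P.image (fun a => idx a / s)).card ≤ q / s + 1 := by
    have : P.image (fun a => idx a / s) ⊆ Finset.range (q / s + 1) := by
      intro j hj
      obtain ⟨a, ha, rfl⟩ := Finset.mem_image.mp hj
      have := hidx a (Finset.mem_filter.mp ha).1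
      rw [Finset.mem_range]
      have := Nat.div_le_div_right (c := s) this.le
      omega
    simpa using Finset.card_le_card this
  exact h1.trans (Nat.mul_le_mul_left _ h2)

/-- the interior of a path as a list -/
def seg (p : ℕ → V) (k : ℕ) : List V := (List.range k).map (fun i => p (i + 1))

theorem seg_length (p : ℕ → V) (k : ℕ) : (seg p k).length = k := by simp [seg]

theorem mem_seg {p : ℕ → V} {k : ℕ} {v : V} : v ∈ seg p k ↔ ∃ i, 1 ≤ i ∧ i ≤ k ∧ p i = v := by
  simp only [seg, List.mem_map, List.mem_range]
  constructor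
  · rintro ⟨i, h1, h2⟩
    exact ⟨i + 1, by omega, by omega, h2⟩
  · rintro ⟨i, h1, h2, h3⟩
    refine ⟨i - 1, by omega, ?_⟩
    rw [Nat.sub_add_cancel h1]
    exact h3

theorem seg_nodup {p : ℕ → V} {k : ℕ}
    (h : ∀ i j, 1 ≤ i → i ≤ k → 1 ≤ j → j ≤ k → p i = p j → i = j) : (seg p k).Nodup := by
  refine List.Nodup.map_on ?_ List.nodup_range
  intro i hi j hj hij
  rw [List.mem_range] at hi hj
  have := h (i + 1) (j + 1) (by omega) (by omega) (by omega) (by omega) hij
  omega

theorem seg_chain {p : ℕ → V} {k : ℕ} (h : ∀ i, 1 ≤ i → i < k → G.Adj (p i) (p (i + 1))) :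
    (seg p k).IsChain G.Adj := by
  rw [List.isChain_iff_getElem]
  intro i hi
  simp only [seg_length] at hi
  simp only [seg, List.getElem_map, List.getElem_range]
  exact h (i + 1) (by omega) (by omega)

theorem seg_head {p : ℕ → V} {k : ℕ} (hk : 1 ≤ k) : (seg p k).head? = some (p 1) := by
  obtain ⟨k, rfl⟩ : ∃ k', k = k' + 1 := ⟨k - 1, by omega⟩
  simp [seg, List.range_succ_eq_map]

theorem seg_getLast {p : ℕ → V} {k : ℕ} (hk : 1 ≤ k) : (seg p k).getLast? = some (p k) := by
  obtain ⟨k, rfl⟩ : ∃ k', k = k' + 1 := ⟨k - 1, by omega⟩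
  simp [seg, List.range_succ]

end CopPath
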