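import Pool.Agent.Work.MP_8941bc_co.Rot.Growth

/-!
# Shortest paths through the territory, and components
-/

namespace CopPath

universe u
variable {V : Type u} {G : SimpleGraph V}

/-- the territory is connected -/
def Conn (G : SimpleGraph V) (D : Set V) : Prop :=
  ∀ x ∈ D, ∀ y ∈ D, Relation.ReflTransGen (fun a b => G.Adj a b ∧ b ∈ D) x y

/-- ends of walks of length `n` from `o` that stay in `D` after the start -/
def LR (G : SimpleGraph V) (D : Set V) (o : V) : ℕ → V → Prop
  | 0, z => z = o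
  | n + 1, z => z ∈ D ∧ ∃ y, LR G D o n y ∧ G.Adj y z

theorem LR.path {D : Set V} {o : V} : ∀ {k : ℕ} {y : V}, LR G D o k y →
    ∃ p : ℕ → V, p 0 = o ∧ p k = y ∧ (∀ i, i < k → G.Adj (p i) (p (i + 1))) ∧
      (∀ i, 1 ≤ i → i ≤ k → p i ∈ D) ∧ ∀ i, i ≤ k → LR G D o i (p i) := by
  intro k
  induction k with
  | zero =>
    intro y h
    refine ⟨fun _ => o, rfl, h.symm, fun i hi => by omega, fun i hi hi' => by omega, ?_⟩
    intro i hi
    have : i = 0 := by omega
    subst this
    rfl
  | succ k ih =>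
    intro y h
    obtain ⟨hy, x, hx, hxy⟩ := h
    obtain ⟨p, h1, h2, h3, h4, h5⟩ := ih hx
    refine ⟨fun i => if i ≤ k then p i else y, ?_, ?_, ?_, ?_, ?_⟩
    · simp [h1]
    · simp
    · intro i hi
      rcases Nat.lt_or_ge i k with h6 | h6
      · simp only [show i ≤ k by omega, show i + 1 ≤ k by omega, if_true]
        exact h3 i h6
      · have : i = k := by omega
        subst this
        simp only [le_refl, if_true, show ¬ (i + 1 ≤ i) by omega, if_false]
        rw [h2]
        exact hxy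
    · intro i hi hi'
      by_cases h6 : i ≤ k
      · simp only [h6, if_true]
        exact h4 i hi h6
      · simp only [h6, if_false]
        exact hy
    · intro i hi
      by_cases h6 : i ≤ k
      · simp only [h6, if_true]
        exact h5 i h6
      · simp only [h6, if_false]
        have : i = k + 1 := by omega
        subst this
        exact ⟨hy, x, hx, hxy⟩

theorem LR.dist_le (hG : G.Connected) {D : Set V} {o : V} : ∀ {k : ℕ} {y : V}, LR G D o k y →
    G.dist y o ≤ k := by
  intro k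
  induction k with
  | zero => intro y h; rw [show y = o from h]; simp
  | succ k ih =>
    intro y h
    obtain ⟨_, x, hx, hxy⟩ := h
    have h1 := ih hx
    have h2 := dist_step hG (Or.inr hxy) o
    omega

theorem LR.exists {D : Set V} {o : V} (hD : Conn G D) (ho : o ∈ Bd G D) {z : V} (hz : z ∈ D) :
    ∃ n, LR G D o n z := by
  obtain ⟨_, x, hx, hxo⟩ := ho
  have h := hD x hx z hz
  induction h with
  | refl => exact ⟨1, hz, o, rfl, hxo.symm⟩
  | tail h1 h2 ih =>
    rename_i b c
    rcases Relation.ReflTransGen.cases_tail h1 with h3 | ⟨w, _, h4⟩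
    · subst h3
      obtain ⟨n, hn⟩ := ih hx
      exact ⟨n + 1, h2.2, _, hn, h2.1⟩
    · obtain ⟨n, hn⟩ := ih h4.2
      exact ⟨n + 1, h2.2, _, hn, h2.1⟩

/-- a shortest path through the territory between two vertices of its boundary -/
theorem through (hG : G.Connected) {D : Set V} {o a : V} (hD : Conn G D) (ho : o ∈ Bd G D)
    (ha : a ∈ Bd G D) :
    ∃ (k : ℕ) (p : ℕ → V), 1 ≤ k ∧ G.dist o a ≤ k + 1 ∧ (∀ i, 1 ≤ i → i ≤ k → p i ∈ D) ∧
      (∀ i, 1 ≤ i → i < k → G.Adj (p i) (p (i + 1))) ∧ G.Adj o (p 1) ∧ G.Adj (p k) a ∧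
      (∀ i j, 1 ≤ i → i ≤ k → 1 ≤ j → j ≤ k → p i = p j → i = j) ∧
      Guardable G D {v | ∃ i, 1 ≤ i ∧ i ≤ k ∧ p i = v} 1 := by
  classical
  have hoD : o ∉ D := ho.1
  have hex : ∃ k, ∃ y ∈ D, LR G D o k y ∧ G.Adj y a := by
    obtain ⟨_, x, hx, hxa⟩ := ha
    obtain ⟨n, hn⟩ := LR.exists hD ho hx
    exact ⟨n, x, hx, hn, hxa⟩
  obtain ⟨y, hyD, hy, hya⟩ := Nat.find_spec hex
  have hmin : ∀ m, m < Nat.find hex → ¬ ∃ y ∈ D, LR G D o m y ∧ G.Adj y a :=
    fun m hm => Nat.find_min hex hm
  generalize Nat.find hex = k at hy hmin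
  obtain ⟨p, h0, hk, h3, h4, h5⟩ := hy.path
  have hk1 : 1 ≤ k := by
    rcases Nat.eq_zero_or_pos k with h | h
    · subst h
      exact absurd ((show y = o from hy) ▸ hyD) hoD
    · exact h
  -- going along the path
  have halong : ∀ d i m, i + d ≤ k → LR G D o m (p i) → LR G D o (m + d) (p (i + d)) := by
    intro d
    induction d with
    | zero => intro i m _ h; exact h
    | succ d ih =>
      intro i m hd h
      have h6 := ih i m (by omega) h
      exact ⟨h4 _ (by omega) (by omega), _, h6, h3 (i + d) (by omega)⟩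
  set f : V → ℕ := fun z => if h : ∃ n, LR G D o n z then Nat.find h else 1 with hf
  have hfle : ∀ z n, LR G D o n z → f z ≤ n := by
    intro z n h
    have hex : ∃ n, LR G D o n z := ⟨n, h⟩
    simp only [hf, hex, dif_pos]
    exact Nat.find_min' hex h
  have hfspec : ∀ z ∈ D, LR G D o (f z) z := by
    intro z hz
    have hex : ∃ n, LR G D o n z := LR.exists hD ho hz
    simp only [hf, hex, dif_pos]
    exact Nat.find_spec hex
  have hfp : ∀ i, 1 ≤ i → i ≤ k → f (p i) = i := by
    intro i hi hi'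
    have h6 := hfle (p i) i (h5 i hi')
    have h7 := hfspec (p i) (h4 i hi hi')
    have h8 := halong (k - i) i _ (by omega) h7
    rw [show i + (k - i) = k by omega, hk] at h8
    by_contra hne
    exact hmin (f (p i) + (k - i)) (by omega) ⟨y, hyD, h8, hya⟩
  refine ⟨k, p, hk1, ?_, h4, fun i _ h => h3 i h, ?_, ?_, ?_, ?_⟩
  · have h6 := hy.dist_le hG
    have h7 := dist_step hG (Or.inr hya) o
    rw [SimpleGraph.dist_comm]
    omega
  · rw [← h0]
    exact h3 0 (by omega)
  · rw [hk]
    exact hya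
  · intro i j hi hi' hj hj' hij
    have h6 := hfp i hi hi'
    have h7 := hfp j hj hj'
    rw [hij] at h6
    omega
  · refine guardable_path hG D k hk1 p f (fun i _ h => h3 i h) hfp ?_ h4 ?_
    · intro z hz
      have h6 := hfspec z hz
      rcases Nat.eq_zero_or_pos (f z) with h | h
      · rw [h] at h6
        exact absurd ((show z = o from h6) ▸ hz) hoD
      · exact h
    · intro z hz z' hz' hadj
      exact hfle z' _ ⟨hz', z, hfspec z hz, hadj⟩

/-- the component of `z` in `D \ X` -/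
def Cp (G : SimpleGraph V) (D X : Set V) (z : V) : Set V :=
  {y | Relation.ReflTransGen (fun a b => G.Adj a b ∧ b ∈ D ∧ b ∉ X) z y}

theorem Cp.self_mem {D X : Set V} {z : V} : z ∈ Cp G D X z := Relation.ReflTransGen.refl

theorem Cp.subset {D X : Set V} {z : V} (hz : z ∈ D) (hzX : z ∉ X) {y : V} (hy : y ∈ Cp G D X z) :
    y ∈ D ∧ y ∉ X := by
  rcases Relation.ReflTransGen.cases_tail hy with h | ⟨w, _, h⟩
  · subst h; exact ⟨hz, hzX⟩
  · exact h.2

theorem Cp.conn {D X : Set V} {z : V} : Conn G (Cp G D X z) := by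
  have h1 : ∀ y ∈ Cp G D X z,
      Relation.ReflTransGen (fun a b => G.Adj a b ∧ b ∈ Cp G D X z) z y := by
    intro y hy
    induction hy with
    | refl => exact Relation.ReflTransGen.refl
    | tail h2 h3 ih => exact ih.tail ⟨h3.1, h2.tail h3⟩
  have h2 : ∀ y ∈ Cp G D X z,
      Relation.ReflTransGen (fun a b => G.Adj a b ∧ b ∈ Cp G D X z) y z := by
    intro y hy
    induction hy with
    | refl => exact Relation.ReflTransGen.refl
    | tail h2 h3 ih => exact Relation.ReflTransGen.head ⟨h3.1.symm, h2⟩ ih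
  intro x hx y hy
  exact (h2 x hx).trans (h1 y hy)

theorem Cp.bd {D X : Set V} {z : V} (hz : z ∈ D) (hzX : z ∉ X) :
    Bd G (Cp G D X z) ⊆ Bd G D ∪ X := by
  rintro v ⟨hv, y, hy, hyv⟩
  have h1 := Cp.subset hz hzX hy
  by_cases hvX : v ∈ X
  · exact Or.inr hvX
  · left
    refine ⟨fun hvD => hv ?_, y, h1.1, hyv⟩
    exact Relation.ReflTransGen.tail hy ⟨hyv, hvD, hvX⟩

theorem Cp.attach {D X : Set V} {z x0 : V} (hD : Conn G D) (hz : z ∈ D) (hzX : z ∉ X)
    (hx0 : x0 ∈ X) (hx0D : x0 ∈ D) : ∃ x ∈ X, x ∈ Bd G (Cp G D X z) := by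
  by_contra hcon
  push Not at hcon
  have key : ∀ y, Relation.ReflTransGen (fun a b => G.Adj a b ∧ b ∈ D) z y → y ∈ Cp G D X z := by
    intro y hy
    induction hy with
    | refl => exact Cp.self_mem
    | tail h2 h3 ih =>
      rename_i b c
      by_cases hc : c ∈ X
      · exfalso
        refine hcon c hc ⟨fun h => (Cp.subset hz hzX h).2 hc, b, ih, h3.1⟩
      · exact Relation.ReflTransGen.tail ih ⟨h3.1, h3.2, hc⟩
  exact (Cp.subset hz hzX (key x0 (hD z hz x0 hx0D))).2 hx0

end CopPath
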